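import Pool.Agent.T2H38.RM.Defs

/-!
# Package COND: conductors of finite extensions and extension of homomorphisms
-/

set_option autoImplicit false

open IsLocalRing

namespace Pool.Agent.T2H38.RM

/-- T10a -/
theorem exists_conductor {R K : Type*} [CommRing R] [IsDomain R] [IsLocalRing R]
    [IsNoetherianRing R] (hdim : ringKrullDim R = 1) [Field K] [Algebra R K]
    [IsFractionRing R K] (S : Subalgebra R K) [Module.Finite R S] :
    ∃ c : R, c ≠ 0 ∧ c ∈ maximalIdeal R ∧ ∀ s : S, ∃ r : R, algebraMap R S r = c • s := by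
  classical
  obtain ⟨x, hx, hx0⟩ : ∃ x ∈ maximalIdeal R, x ≠ 0 := by
    by_contra hcon
    push Not at hcon
    have hbot : maximalIdeal R = ⊥ := by
      rw [eq_bot_iff]
      intro y hy
      simpa using hcon y hy
    have hf : IsField R := IsLocalRing.isField_iff_maximalIdeal_eq.2 hbot
    have h0 : ringKrullDim R = 0 := ringKrullDim_eq_zero_of_isField hf
    rw [h0] at hdim
    exact absurd hdim (by norm_num)
  obtain ⟨t, ht⟩ := (Module.Finite.fg_top : (⊤ : Submodule R S).FG)
  obtain ⟨b, hb⟩ := IsLocalization.exist_integer_multiples_of_finset (nonZeroDivisors R)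
    (t.image (fun s : S => (s : K)))
  have hb0 : (b : R) ≠ 0 := nonZeroDivisors.coe_ne_zero b
  have key : ∀ s : S, ∃ r : R, algebraMap R S r = (b : R) • s := by
    intro s
    have hs : s ∈ Submodule.span R (t : Set S) := by rw [ht]; trivial
    refine Submodule.span_induction ?_ ?_ ?_ ?_ hs
    · intro y hy
      obtain ⟨r, hr⟩ := hb (y : K) (Finset.mem_image_of_mem _ hy)
      refine ⟨r, ?_⟩
      apply Subtype.ext
      rw [Subalgebra.coe_algebraMap, hr, Subalgebra.coe_smul]
    · exact ⟨0, by simp⟩
    · rintro y z _ _ ⟨r, hr⟩ ⟨r', hr'⟩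
      exact ⟨r + r', by rw [map_add, hr, hr', smul_add]⟩
    · rintro a y _ ⟨r, hr⟩
      refine ⟨a * r, ?_⟩
      rw [map_mul, hr, ← Algebra.smul_def, smul_comm]
  refine ⟨b * x, mul_ne_zero hb0 hx0, Ideal.mul_mem_left _ _ hx, fun s => ?_⟩
  obtain ⟨r, hr⟩ := key s
  refine ⟨x * r, ?_⟩
  rw [map_mul, hr, ← Algebra.smul_def, smul_smul, mul_comm x]

/-- T10b -/
theorem conductor_mem {R S F : Type*} [CommRing R] [CommRing S] [Algebra R S]
    [AddCommGroup F] [Module R F] [Module S F] [IsScalarTower R S F]
    (c : R) (hc : ∀ s : S, ∃ r : R, algebraMap R S r = c • s)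
    (L : Submodule R F) (hL : Submodule.span S (L : Set F) = ⊤) (f : F) : c • f ∈ L := by
  have hf : f ∈ Submodule.span S (L : Set F) := by rw [hL]; trivial
  have key : ∀ s : S, c • (s • f) ∈ L := by
    refine Submodule.span_induction ?_ ?_ ?_ ?_ hf
    · intro y hy s
      obtain ⟨r, hr⟩ := hc s
      have h1 : c • (s • y) = r • y := by
        rw [← smul_assoc, ← hr, algebraMap_smul]
      rw [h1]
      exact L.smul_mem r hy
    · intro s
      simp
    · intro y z _ _ hy hz s
      rw [smul_add, smul_add]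
      exact L.add_mem (hy s) (hz s)
    · intro a y _ hy s
      rw [smul_smul]
      exact hy (s * a)
  have h1 := key 1
  rwa [one_smul] at h1

/-- T10c -/
theorem extend_hom {R S F : Type*} [CommRing R] [CommRing S] [Algebra R S]
    [AddCommGroup F] [Module R F] [Module S F] [IsScalarTower R S F]
    (c : R) (hc : ∀ s : S, ∃ r : R, algebraMap R S r = c • s)
    (hreg : ∀ f : F, c • f = 0 → f = 0)
    (L : Submodule R F) (hL : Submodule.span S (L : Set F) = ⊤) (h : L →ₗ[R] F) :
    ∃ h' : F →ₗ[R] F, ∀ l : L, h' l = h l := by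
  have hmem := conductor_mem c hc L hL
  have hcancel : ∀ f g : F, c • f = c • g → f = g := by
    intro f g hfg
    have h1 := hreg (f - g) (by rw [smul_sub, hfg, sub_self])
    exact sub_eq_zero.1 h1
  have hex : ∀ f : F, ∃ g : F, c • g = h ⟨c • f, hmem f⟩ := by
    intro f
    have hf : f ∈ Submodule.span S (L : Set F) := by rw [hL]; trivial
    refine Submodule.span_induction ?_ ?_ ?_ ?_ hf
    · intro y hy
      refine ⟨h ⟨y, hy⟩, ?_⟩
      rw [← map_smul]
      rfl
    · refine ⟨0, ?_⟩
      have h1 : (⟨c • (0 : F), hmem 0⟩ : L) = 0 := Subtype.ext (smul_zero c)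
      rw [h1, map_zero, smul_zero]
    · rintro y z _ _ ⟨g, hg⟩ ⟨g', hg'⟩
      refine ⟨g + g', ?_⟩
      rw [smul_add, hg, hg', ← map_add]
      congr 1
      apply Subtype.ext
      change c • y + c • z = c • (y + z)
      rw [smul_add]
    · rintro s y _ ⟨g, hg⟩
      refine ⟨s • g, ?_⟩
      apply hcancel
      obtain ⟨r, hr⟩ := hc s
      have h1 : ∀ w : F, c • (s • w) = r • w := by
        intro w
        rw [← smul_assoc, ← hr, algebraMap_smul]
      rw [h1, smul_comm, hg, ← map_smul, ← map_smul]
      congr 1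
      apply Subtype.ext
      change r • (c • y) = c • (c • (s • y))
      rw [h1, smul_comm]
  choose g hg using hex
  refine ⟨{ toFun := g, map_add' := ?_, map_smul' := ?_ }, ?_⟩
  · intro x y
    apply hcancel
    rw [smul_add, hg, hg, hg, ← map_add]
    congr 1
    apply Subtype.ext
    change c • (x + y) = c • x + c • y
    rw [smul_add]
  · intro a x
    apply hcancel
    rw [RingHom.id_apply, smul_comm c a, hg, hg, ← map_smul]
    congr 1
    apply Subtype.ext
    change c • (a • x) = a • (c • x)
    rw [smul_comm]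
  · intro l
    change g l = h l
    apply hcancel
    rw [hg, ← map_smul]
    rfl

end Pool.Agent.T2H38.RM
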