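import Mathlib

set_option autoImplicit false
universe u v

open IsLocalRing

namespace Pool.Agent.T2H38.RM

/-- `M` is rigid: every self-extension `0 → M → E → M → 0` splits (the form of the frozen statement). -/
def Rigid (R : Type u) [CommRing R] (M : Type u) [AddCommGroup M] [Module R M] : Prop :=
  ∀ (E : Type u) [AddCommGroup E] [Module R E] (f : M →ₗ[R] E) (g : E →ₗ[R] M),
    Function.Injective f → Function.Surjective g → LinearMap.range f = LinearMap.ker g →
    ∃ s : M →ₗ[R] E, g ∘ₗ s = LinearMap.id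

/-- finite-dimensional notion of a subspace whose first-order `Γ`-stable motions all come from `Λ` -/
def Good {k V : Type*} [Field k] [AddCommGroup V] [Module k V]
    (Γ : Set (Module.End k V)) (Λ : Submodule k (Module.End k V)) (L : Submodule k V) : Prop :=
  (∀ γ ∈ Γ, ∀ l ∈ L, γ l ∈ L) ∧
  ∀ φ : Module.End k V, (∀ γ ∈ Γ, ∀ l ∈ L, γ (φ l) - φ (γ l) ∈ L) →
    ∃ g ∈ Λ, ∀ l ∈ L, φ l - g l ∈ L

end Pool.Agent.T2H38.RM
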