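import Mathlib
import Pool.Agent.T2H38.RM.Defs

set_option autoImplicit false
universe u v

open IsLocalRing

namespace Pool.Agent.T2H38.RM

/-- index type: the minimal primes of `R` -/
abbrev Mp (R : Type u) [CommRing R] : Type u := {p : Ideal R // p ∈ minimalPrimes R}

instance instPrimeMp {R : Type u} [CommRing R] (p : Mp R) : p.1.IsPrime := p.2.1.1

/-- normalisation of the branch `R ⧸ p` -/
abbrev Sp (R : Type u) [CommRing R] (p : Mp R) : Type u :=
  integralClosure (R ⧸ p.1) (FractionRing (R ⧸ p.1))

end Pool.Agent.T2H38.RM
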