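import Mathlib

set_option autoImplicit false

namespace Pool.Agent.T2H38.RM

namespace PkgCBC

/-- a linear map between finite-dimensional spaces has a generalised inverse -/
theorem exists_ginv {k V W : Type*} [Field k] [AddCommGroup V] [Module k V]
    [AddCommGroup W] [Module k W] (A : V →ₗ[k] W) :
    ∃ G : W →ₗ[k] V, ∀ v, A (G (A v)) = A v := by
  obtain ⟨g, hg⟩ := A.rangeRestrict.exists_rightInverse_of_surjective
    (LinearMap.range_eq_top.2 A.surjective_rangeRestrict)
  obtain ⟨G, hG⟩ := LinearMap.exists_extend g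
  refine ⟨G, fun v => ?_⟩
  have h1 : G (A v) = g (A.rangeRestrict v) := by
    have := LinearMap.congr_fun hG (A.rangeRestrict v)
    simpa using this
  rw [h1]
  have h2 := LinearMap.congr_fun hg (A.rangeRestrict v)
  have h3 := congrArg Subtype.val h2
  simpa using h3

end PkgCBC

open PkgCBC

theorem cbc {k X : Type*} [Field k] (B : Subalgebra k (X → k)) [IsNoetherianRing B]
    {W0 W1 W2 : Type*} [AddCommGroup W0] [Module k W0] [FiniteDimensional k W0]
    [AddCommGroup W1] [Module k W1] [FiniteDimensional k W1]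
    [AddCommGroup W2] [Module k W2] [FiniteDimensional k W2]
    (T : X → W0 →ₗ[k] W1) (D : X → W1 →ₗ[k] W2)
    (hT : ∀ (w : W0) (ξ : Module.Dual k W1), (fun x => ξ (T x w)) ∈ B)
    (hD : ∀ (w : W1) (ξ : Module.Dual k W2), (fun x => ξ (D x w)) ∈ B)
    (hDT : ∀ x w, D x (T x w) = 0)
    (x0 : X) (hex : ∀ w, D x0 w = 0 → ∃ v, T x0 v = w)
    (w0 : W0) (hw0 : T x0 w0 = 0) :
    ∃ f : X → W0, (∀ ξ : Module.Dual k W0, (fun x => ξ (f x)) ∈ B) ∧
      (∀ x, T x (f x) = 0) ∧ f x0 = w0 := by
  classical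
  -- bases
  let v0 := Module.finBasis k W0
  let v1 := Module.finBasis k W1
  let v2 := Module.finBasis k W2
  -- matrices over B
  let Tm : Matrix (Fin (Module.finrank k W1)) (Fin (Module.finrank k W0)) B :=
    fun j i => ⟨fun x => v1.coord j (T x (v0 i)), hT (v0 i) (v1.coord j)⟩
  let Dm : Matrix (Fin (Module.finrank k W2)) (Fin (Module.finrank k W1)) B :=
    fun l j => ⟨fun x => v2.coord l (D x (v1 j)), hD (v1 j) (v2.coord l)⟩
  -- the generalised inverses at x0
  obtain ⟨Q, hQ⟩ := exists_ginv (D x0)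
  obtain ⟨τ, hτ⟩ := exists_ginv (T x0)
  let s : W1 →ₗ[k] W0 := τ ∘ₗ (LinearMap.id - Q ∘ₗ (D x0))
  have hs : ∀ w, T x0 (s w) + Q (D x0 w) = w := by
    intro w
    have h1 : D x0 (w - Q (D x0 w)) = 0 := by rw [map_sub, hQ, sub_self]
    obtain ⟨v, hv⟩ := hex _ h1
    have h2 : T x0 (s w) = w - Q (D x0 w) := by
      change T x0 (τ (w - Q (D x0 w))) = _
      rw [← hv, hτ]
    rw [h2, sub_add_cancel]
  let T0 : Matrix (Fin (Module.finrank k W1)) (Fin (Module.finrank k W0)) k :=
    LinearMap.toMatrix v0 v1 (T x0)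
  let D0 : Matrix (Fin (Module.finrank k W2)) (Fin (Module.finrank k W1)) k :=
    LinearMap.toMatrix v1 v2 (D x0)
  let Sm := LinearMap.toMatrix v1 v0 s
  let Qm := LinearMap.toMatrix v2 v1 Q
  have hid : T0 * Sm + Qm * D0 = 1 := by
    have h1 : T0 * Sm = LinearMap.toMatrix v1 v1 (T x0 ∘ₗ s) :=
      (LinearMap.toMatrix_comp v1 v0 v1 (T x0) s).symm
    have h2 : Qm * D0 = LinearMap.toMatrix v1 v1 (Q ∘ₗ D x0) :=
      (LinearMap.toMatrix_comp v1 v2 v1 Q (D x0)).symm
    rw [h1, h2, ← map_add]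
    have h3 : T x0 ∘ₗ s + Q ∘ₗ D x0 = LinearMap.id := by
      ext w; simpa using hs w
    rw [h3, LinearMap.toMatrix_id]
  let ι : k →+* B := algebraMap k B
  have hidB : T0.map ι * Sm.map ι + Qm.map ι * D0.map ι = 1 := by
    rw [← Matrix.map_mul, ← Matrix.map_mul, ← Matrix.map_add _ (fun a b => map_add ι a b), hid]
    exact Matrix.map_one _ (map_zero ι) (map_one ι)
  have hDTm : Dm * Tm = 0 := by
    ext l i x
    have h1 : v2.coord l (D x (T x (v0 i))) = 0 := by rw [hDT]; simp
    have h2 : T x (v0 i) = ∑ j, v1.coord j (T x (v0 i)) • v1 j := by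
      simpa using (v1.sum_repr (T x (v0 i))).symm
    rw [h2] at h1
    simp only [map_sum, map_smul, smul_eq_mul] at h1
    have h3 : ((Dm * Tm) l i : X → k) x
        = ∑ j, v2.coord l (D x (v1 j)) * v1.coord j (T x (v0 i)) := by
      simp [Matrix.mul_apply, Dm, Tm]
    have h4 : (((0 : Matrix (Fin (Module.finrank k W2)) (Fin (Module.finrank k W0)) B) l i : B) :
        X → k) x = 0 := rfl
    rw [h3, h4, ← h1]
    exact Finset.sum_congr rfl (fun j _ => mul_comm _ _)
  -- evaluation at x0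
  let ε : B →+* k := (Pi.evalRingHom (fun _ : X => k) x0).comp B.val.toRingHom
  let m : Ideal B := RingHom.ker ε
  have hει : ∀ c : k, ε (ι c) = c := fun c => rfl
  have hT0m : ∀ j i, ι (T0 j i) - Tm j i ∈ m := by
    intro j i
    rw [RingHom.mem_ker, map_sub, hει]
    have : ε (Tm j i) = T0 j i := by
      simp only [T0, LinearMap.toMatrix_apply]
      rfl
    rw [this, sub_self]
  have hD0m : ∀ l j, ι (D0 l j) - Dm l j ∈ m := by
    intro l j
    rw [RingHom.mem_ker, map_sub, hει]
    have : ε (Dm l j) = D0 l j := by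
      simp only [D0, LinearMap.toMatrix_apply]
      rfl
    rw [this, sub_self]
  -- the submodule N
  let Nu : Submodule B (Fin (Module.finrank k W0) → B) := Submodule.pi Set.univ (fun _ => m)
  let N : Submodule B (Fin (Module.finrank k W1) → B) := Nu.map Tm.mulVecLin
  let w0B : Fin (Module.finrank k W0) → B := fun i => ι (v0.coord i w0)
  let y0 : Fin (Module.finrank k W1) → B := Tm.mulVec w0B
  have hDy0 : Dm.mulVec y0 = 0 := by
    change Dm.mulVec (Tm.mulVec w0B) = 0
    rw [Matrix.mulVec_mulVec, hDTm, Matrix.zero_mulVec]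
  have hy0m : ∀ j, y0 j ∈ m := by
    intro j
    rw [RingHom.mem_ker]
    have h1 : ε (y0 j) = ∑ i, v1.coord j (T x0 (v0 i)) * v0.coord i w0 := by
      change ε (∑ i, Tm j i * w0B i) = _
      rw [map_sum]
      refine Finset.sum_congr rfl (fun i _ => ?_)
      rw [map_mul]
      rfl
    rw [h1]
    have h2 : v1.coord j (T x0 w0) = 0 := by rw [hw0]; simp
    have h3 : w0 = ∑ i, v0.coord i w0 • v0 i := by simpa using (v0.sum_repr w0).symm
    rw [h3] at h2
    simp only [map_sum, map_smul, smul_eq_mul] at h2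
    rw [← h2]
    refine Finset.sum_congr rfl (fun i _ => ?_)
    rw [mul_comm]
  -- iteration
  have hiter : ∀ n : ℕ, ∃ y : Fin (Module.finrank k W1) → B, (∀ j, y j ∈ m ^ (n + 1)) ∧
      Dm.mulVec y = 0 ∧ y0 - y ∈ N := by
    intro n
    induction n with
    | zero => exact ⟨y0, by simpa using hy0m, hDy0, by simp⟩
    | succ n ih =>
      obtain ⟨y, hy, hDy, hyN⟩ := ih
      let u := (Sm.map ι).mulVec y
      have hu : ∀ i, u i ∈ m ^ (n + 1) := by
        intro i
        change ∑ j, (Sm.map ι) i j * y j ∈ m ^ (n + 1)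
        exact Ideal.sum_mem _ (fun j _ => Ideal.mul_mem_left _ _ (hy j))
      refine ⟨y - Tm.mulVec u, ?_, ?_, ?_⟩
      · have hkey : y - Tm.mulVec u = (T0.map ι - Tm).mulVec u
            + (Qm.map ι).mulVec ((D0.map ι - Dm).mulVec y) := by
          have h1 : y = (T0.map ι).mulVec u + (Qm.map ι).mulVec ((D0.map ι).mulVec y) := by
            have h2 : (T0.map ι).mulVec u = (T0.map ι * Sm.map ι).mulVec y := by
              rw [← Matrix.mulVec_mulVec]
            rw [h2, Matrix.mulVec_mulVec, ← Matrix.add_mulVec, hidB, Matrix.one_mulVec]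
          rw [Matrix.sub_mulVec, Matrix.sub_mulVec, hDy, sub_zero]
          conv_lhs => rw [h1]
          abel
        intro j
        rw [hkey]
        have e1 : ((T0.map ι - Tm).mulVec u) j ∈ m ^ (n + 1 + 1) := by
          change ∑ i, (T0.map ι - Tm) j i * u i ∈ m ^ (n + 1 + 1)
          refine Ideal.sum_mem _ (fun i _ => ?_)
          rw [pow_succ' m (n + 1)]
          exact Ideal.mul_mem_mul (hT0m j i) (hu i)
        have e2 : ∀ l, ((D0.map ι - Dm).mulVec y) l ∈ m ^ (n + 1 + 1) := by
          intro l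
          change ∑ i, (D0.map ι - Dm) l i * y i ∈ m ^ (n + 1 + 1)
          refine Ideal.sum_mem _ (fun i _ => ?_)
          rw [pow_succ' m (n + 1)]
          exact Ideal.mul_mem_mul (hD0m l i) (hy i)
        have e3 : ((Qm.map ι).mulVec ((D0.map ι - Dm).mulVec y)) j ∈ m ^ (n + 1 + 1) := by
          change ∑ l, (Qm.map ι) j l * ((D0.map ι - Dm).mulVec y) l ∈ m ^ (n + 1 + 1)
          exact Ideal.sum_mem _ (fun l _ => Ideal.mul_mem_left _ _ (e2 l))
        exact Ideal.add_mem _ e1 e3
      · rw [Matrix.mulVec_sub, hDy, Matrix.mulVec_mulVec, hDTm, Matrix.zero_mulVec, sub_zero]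
      · have h1 : y0 - (y - Tm.mulVec u) = (y0 - y) + Tm.mulVec u := by abel
        rw [h1]
        refine N.add_mem hyN ?_
        refine Submodule.mem_map.2 ⟨u, ?_, rfl⟩
        rw [Submodule.mem_pi]
        intro i _
        exact Ideal.pow_le_self (Nat.succ_ne_zero n) (hu i)
  -- Krull
  have hkrull : (Submodule.Quotient.mk y0 : (Fin (Module.finrank k W1) → B) ⧸ N) ∈
      (⨅ i : ℕ, m ^ i • (⊤ : Submodule B ((Fin (Module.finrank k W1) → B) ⧸ N))) := by
    rw [Submodule.mem_iInf]
    intro n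
    obtain ⟨y, hy, _, hyN⟩ := hiter n
    have h1 : (Submodule.Quotient.mk y0 : (Fin (Module.finrank k W1) → B) ⧸ N)
        = Submodule.Quotient.mk y := (Submodule.Quotient.eq N).2 hyN
    rw [h1]
    have h2 : y = ∑ j, y j • (Pi.single j (1 : B) : Fin (Module.finrank k W1) → B) := by
      funext i
      simp [Finset.sum_apply, Pi.single_apply]
    rw [h2]
    have h3 : (Submodule.Quotient.mk (∑ j, y j • (Pi.single j (1 : B) :
        Fin (Module.finrank k W1) → B)) : (Fin (Module.finrank k W1) → B) ⧸ N)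
        = ∑ j, y j • (Submodule.Quotient.mk (Pi.single j (1 : B)) :
          (Fin (Module.finrank k W1) → B) ⧸ N) := by
      change N.mkQ _ = ∑ j, y j • N.mkQ _
      simp
    rw [h3]
    refine Submodule.sum_mem _ (fun j _ => ?_)
    exact Submodule.smul_mem_smul (Ideal.pow_le_pow_right (Nat.le_succ n) (hy j))
      Submodule.mem_top
  obtain ⟨r, hr⟩ := (Ideal.mem_iInf_smul_pow_eq_bot_iff m _).1 hkrull
  have hr2 : (1 - (r : B)) • y0 ∈ N := by
    have h1 : (Submodule.Quotient.mk ((r : B) • y0) : (Fin (Module.finrank k W1) → B) ⧸ N)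
        = Submodule.Quotient.mk y0 := hr
    have h2 := (Submodule.Quotient.eq N).1 h1.symm
    have h3 : (1 - (r : B)) • y0 = y0 - (r : B) • y0 := by
      funext j
      simp [sub_mul]
    rw [h3]
    exact h2
  obtain ⟨u, hu, huT⟩ := Submodule.mem_map.1 hr2
  rw [Submodule.mem_pi] at hu
  let F : Fin (Module.finrank k W0) → B := (1 - (r : B)) • w0B - u
  have hTF : Tm.mulVec F = 0 := by
    have h1 : Tm.mulVec u = (1 - (r : B)) • y0 := huT
    change Tm.mulVec ((1 - (r : B)) • w0B - u) = 0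
    rw [Matrix.mulVec_sub, h1, Matrix.mulVec_smul, sub_self]
  refine ⟨fun x => ∑ i, ((F i : B) : X → k) x • v0 i, ?_, ?_, ?_⟩
  · intro ξ
    have h1 : (fun x => ξ (∑ i, ((F i : B) : X → k) x • v0 i))
        = ∑ i, (ξ (v0 i)) • ((F i : B) : X → k) := by
      funext x
      simp [Finset.sum_apply, mul_comm]
    rw [h1]
    exact B.sum_mem (fun i _ => B.smul_mem (F i).2 _)
  · intro x
    apply v1.ext_elem
    intro j
    have h1 : ((Tm.mulVec F) j : X → k) x = 0 := by rw [hTF]; rfl
    have h2 : ((Tm.mulVec F) j : X → k) x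
        = ∑ i, v1.coord j (T x (v0 i)) * ((F i : B) : X → k) x := by
      change ((∑ i, Tm j i * F i : B) : X → k) x = _
      simp [Tm, Finset.sum_apply]
    rw [h2] at h1
    simp only [map_sum, map_smul, map_zero, Finsupp.coe_zero, Pi.zero_apply]
    rw [Finsupp.coe_finsetSum, Finset.sum_apply]
    rw [← h1]
    refine Finset.sum_congr rfl (fun i _ => ?_)
    simp [mul_comm]
  · have h1 : ∀ i, ((F i : B) : X → k) x0 = v0.coord i w0 := by
      intro i
      have h2 : ε (F i) = v0.coord i w0 := by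
        have h3 : F i = (1 - (r : B)) * w0B i - u i := rfl
        have h4 : ε (u i) = 0 := hu i (Set.mem_univ i)
        have h5 : ε (r : B) = 0 := r.2
        rw [h3, map_sub, map_mul, map_sub, map_one, h4, h5]
        simp [w0B, hει]
      exact h2
    simp only [h1]
    simpa using v0.sum_repr w0

end Pool.Agent.T2H38.RM
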