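import Mathlib
import Pool.Agent.T2H38.RM.Defs
import Pool.Agent.T2H38.RM.CBC

/-! # Project RM, package FGOOD: finitely many good subspaces up to the action of `Λ` -/

set_option autoImplicit false

namespace Pool.Agent.T2H38.RM

namespace FG

open Module

variable {k V : Type*} [Field k] [AddCommGroup V] [Module k V]

lemma good_span (Γ : Set (Module.End k V)) (Λ : Submodule k (Module.End k V)) (L : Submodule k V) :
    Good Γ Λ L ↔ Good (Submodule.span k Γ : Set (Module.End k V)) Λ L := by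
  have st : (∀ γ ∈ Γ, ∀ l ∈ L, γ l ∈ L) → ∀ γ ∈ Submodule.span k Γ, ∀ l ∈ L, γ l ∈ L := by
    intro h γ hγ
    induction hγ using Submodule.span_induction with
    | mem x hx => exact h x hx
    | zero => intro l _; simp
    | add x y _ _ hx hy => intro l hl; exact L.add_mem (hx l hl) (hy l hl)
    | smul a x _ hx => intro l hl; exact L.smul_mem a (hx l hl)
  have dr : ∀ φ : Module.End k V, (∀ γ ∈ Γ, ∀ l ∈ L, γ (φ l) - φ (γ l) ∈ L) →
      ∀ γ ∈ Submodule.span k Γ, ∀ l ∈ L, γ (φ l) - φ (γ l) ∈ L := by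
    intro φ h γ hγ
    induction hγ using Submodule.span_induction with
    | mem x hx => exact h x hx
    | zero => intro l _; simp
    | add x y _ _ hx hy =>
      intro l hl
      have := L.add_mem (hx l hl) (hy l hl)
      rw [LinearMap.add_apply, LinearMap.add_apply, map_add]
      convert this using 1
      abel
    | smul a x _ hx =>
      intro l hl
      have := L.smul_mem a (hx l hl)
      rw [LinearMap.smul_apply, LinearMap.smul_apply, map_smul, ← smul_sub]
      exact this
  constructor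
  · rintro ⟨h1, h2⟩
    exact ⟨st h1, fun φ hφ => h2 φ fun γ hγ => hφ γ (Submodule.subset_span hγ)⟩
  · rintro ⟨h1, h2⟩
    exact ⟨fun γ hγ => h1 γ (Submodule.subset_span hγ), fun φ hφ => h2 φ (dr φ hφ)⟩

/-- the parameter space -/
def XX (s : Finset (Module.End k V)) (m : ℕ) : Type _ :=
  {E : Module.End k V // E * E = E ∧ (∀ γ ∈ s, E * γ * E = γ * E) ∧ finrank k (LinearMap.range E) = m}

variable [FiniteDimensional k V]

/-- the coordinate ring -/
noncomputable def BB (s : Finset (Module.End k V)) (m : ℕ) : Subalgebra k (XX s m → k) :=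
  Algebra.adjoin k (Set.range fun i => fun x : XX s m => (Module.finBasis k (Dual k (Module.End k V)) i) x.1)

lemma BB_noeth (s : Finset (Module.End k V)) (m : ℕ) : IsNoetherianRing (BB s m) := by
  have h1 : (BB s m).FG := Subalgebra.fg_def.mpr ⟨_, Set.finite_range _, rfl⟩
  haveI : Algebra.FiniteType k (BB s m) := (Subalgebra.fg_iff_finiteType _).mp h1
  exact Algebra.FiniteType.isNoetherianRing k (BB s m)

lemma BB_mem (s : Finset (Module.End k V)) (m : ℕ) (ξ : Dual k (Module.End k V)) :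
    (fun x : XX s m => ξ x.1) ∈ BB s m := by
  have h1 : (fun x : XX s m => ξ x.1) = ∑ i, ((Module.finBasis k (Dual k (Module.End k V))).repr ξ i) •
      (fun x : XX s m => (Module.finBasis k (Dual k (Module.End k V)) i) x.1) := by
    funext x
    have h := congrArg (fun ζ : Dual k (Module.End k V) => ζ x.1)
      ((Module.finBasis k (Dual k (Module.End k V))).sum_repr ξ)
    simp only [LinearMap.sum_apply, LinearMap.smul_apply] at h
    simp only [Finset.sum_apply, Pi.smul_apply]
    exact h.symm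
  rw [h1]
  refine Subalgebra.sum_mem _ fun i _ => Subalgebra.smul_mem _ ?_ _
  exact Algebra.subset_adjoin ⟨i, rfl⟩

lemma BB_affine (s : Finset (Module.End k V)) (m : ℕ) (ξ : Dual k (Module.End k V)) (c : k) :
    (fun x : XX s m => ξ x.1 + c) ∈ BB s m := by
  have h1 : (fun x : XX s m => ξ x.1 + c) = (fun x : XX s m => ξ x.1) + algebraMap k (XX s m → k) c := by
    funext x
    rfl
  rw [h1]
  exact Subalgebra.add_mem _ (BB_mem s m ξ) (Subalgebra.algebraMap_mem _ c)

/-- the map `T_x` -/
noncomputable def TT (Λ : Submodule k (Module.End k V)) (E0 E : Module.End k V) :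
    Λ →ₗ[k] Module.End k V :=
  ((LinearMap.mulRight k E0).comp (LinearMap.mulLeft k (1 - E))).comp Λ.subtype

lemma TT_apply (Λ : Submodule k (Module.End k V)) (E0 E : Module.End k V) (g : Λ) :
    TT Λ E0 E g = (1 - E) * g * E0 := rfl

/-- the map `D_x` -/
noncomputable def DD (s : Finset (Module.End k V)) (E0 E : Module.End k V) :
    Module.End k V →ₗ[k] Module.End k V × Module.End k V × (s → Module.End k V) :=
  (LinearMap.mulLeft k E).prod ((LinearMap.mulRight k (1 - E0)).prod
    (LinearMap.pi fun γ : s => LinearMap.mulLeft k ((1 - E) * γ.1) - LinearMap.mulRight k (γ.1 * E0)))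

lemma DD_apply (s : Finset (Module.End k V)) (E0 E φ : Module.End k V) :
    DD s E0 E φ = (E * φ, φ * (1 - E0), fun γ : s => (1 - E) * γ.1 * φ - φ * (γ.1 * E0)) := rfl

lemma det_mem (s : Finset (Module.End k V)) (m : ℕ) (Λ : Submodule k (Module.End k V)) (f : XX s m → Λ)
    (hf : ∀ ξ : Dual k Λ, (fun x => ξ (f x)) ∈ BB s m) :
    (fun x => LinearMap.det ((f x : Module.End k V) : V →ₗ[k] V)) ∈ BB s m := by
  classical
  let b := Module.finBasis k V
  have h1 : (fun x => LinearMap.det ((f x : Module.End k V) : V →ₗ[k] V)) =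
      ∑ σ : Equiv.Perm (Fin (finrank k V)), Equiv.Perm.sign σ •
        ∏ i, (fun x => LinearMap.toMatrix b b (f x : Module.End k V) (σ i) i) := by
    funext x
    rw [← LinearMap.det_toMatrix b, Matrix.det_apply]
    simp [Finset.sum_apply, Finset.prod_apply]
  rw [h1]
  refine Subalgebra.sum_mem _ fun σ _ => ?_
  have h2 : ∏ i, (fun x => LinearMap.toMatrix b b (f x : Module.End k V) (σ i) i) ∈ BB s m := by
    refine Subalgebra.prod_mem _ fun i _ => ?_
    have := hf ((b.coord (σ i)).comp ((LinearMap.applyₗ (b i)).comp Λ.subtype))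
    have e : (fun x => LinearMap.toMatrix b b (f x : Module.End k V) (σ i) i) =
        fun x => ((b.coord (σ i)).comp ((LinearMap.applyₗ (b i)).comp Λ.subtype)) (f x) := by
      funext x
      rw [LinearMap.toMatrix_apply]
      rfl
    rw [e]
    exact this
  rcases Int.units_eq_one_or (Equiv.Perm.sign σ) with h | h
  · rw [h, one_smul]
    exact h2
  · rw [h]
    have : (-1 : ℤˣ) • ∏ i, (fun x => LinearMap.toMatrix b b (f x : Module.End k V) (σ i) i) =
        - ∏ i, (fun x => LinearMap.toMatrix b b (f x : Module.End k V) (σ i) i) := by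
      rw [Units.smul_def]
      simp
    rw [this]
    exact Subalgebra.neg_mem _ h2

/-- the local statement at a good subspace -/
lemma loc (s : Finset (Module.End k V)) (m : ℕ) (Λ : Submodule k (Module.End k V))
    (h1 : (1 : Module.End k V) ∈ Λ) (hcomm : ∀ γ ∈ s, ∀ g ∈ Λ, γ * g = g * γ)
    (L0 : Submodule k V) (hg : Good (s : Set (Module.End k V)) Λ L0) (hm : finrank k L0 = m) :
    ∃ δ ∈ BB s m, (∀ x : XX s m, δ x ≠ 0 → ∃ g ∈ Λ, Function.Bijective g ∧ L0.map g = LinearMap.range x.1) ∧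
      ∃ x : XX s m, LinearMap.range x.1 = L0 ∧ δ x ≠ 0 := by
  classical
  obtain ⟨q, hq⟩ := Submodule.exists_isCompl L0
  set E0 : Module.End k V := L0.projection q hq with hE0
  have hE0r : LinearMap.range E0 = L0 := Submodule.range_projection hq
  have hE0l : ∀ l ∈ L0, E0 l = l := fun l hl => Submodule.projection_apply_of_mem_left hq hl
  have hE0m : ∀ v, E0 v ∈ L0 := fun v => by
    rw [← hE0r]
    exact LinearMap.mem_range_self E0 v
  have hE0i : E0 * E0 = E0 := by
    ext v
    exact hE0l _ (hE0m v)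
  have hE0s : ∀ γ ∈ s, E0 * γ * E0 = γ * E0 := by
    intro γ hγ
    ext v
    exact hE0l _ (hg.1 γ hγ _ (hE0m v))
  let x0 : XX s m := ⟨E0, hE0i, hE0s, by rw [hE0r]; exact hm⟩
  haveI := BB_noeth s m
  have key := cbc (BB s m) (W0 := Λ) (W1 := Module.End k V)
    (W2 := Module.End k V × Module.End k V × (s → Module.End k V))
    (fun x => TT Λ E0 x.1) (fun x => DD s E0 x.1)
    (by
      intro g ξ
      have e : (fun x : XX s m => ξ (TT Λ E0 x.1 g)) =
          fun x : XX s m => (-(ξ.comp (LinearMap.mulRight k ((g : Module.End k V) * E0)))) x.1 +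
            ξ ((g : Module.End k V) * E0) := by
        funext x
        rw [TT_apply, LinearMap.neg_apply, LinearMap.comp_apply, LinearMap.mulRight_apply, ← map_neg, ← map_add]
        congr 1
        noncomm_ring
      rw [e]
      exact BB_affine s m _ _)
    (by
      intro φ ξ
      have e : (fun x : XX s m => ξ (DD s E0 x.1 φ)) =
          fun x : XX s m => (ξ.comp ((LinearMap.mulRight k φ).prod ((0 : Module.End k V →ₗ[k] Module.End k V).prod
            (LinearMap.pi fun γ : s => -(LinearMap.mulRight k (γ.1 * φ)))))) x.1 +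
            ξ (0, φ * (1 - E0), fun γ : s => γ.1 * φ - φ * (γ.1 * E0)) := by
        funext x
        rw [DD_apply, LinearMap.comp_apply, ← map_add]
        congr 1
        refine Prod.ext ?_ (Prod.ext ?_ ?_)
        · simp
        · simp
        · funext γ
          show (1 - x.1) * γ.1 * φ - φ * (γ.1 * E0) = -(x.1 * (γ.1 * φ)) + (γ.1 * φ - φ * (γ.1 * E0))
          noncomm_ring
      rw [e]
      exact BB_affine s m _ _)
    (by
      intro x g
      obtain ⟨E, hE1, hE2, hE3⟩ := x
      rw [TT_apply, DD_apply]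
      refine Prod.ext ?_ (Prod.ext ?_ ?_)
      · show E * ((1 - E) * g * E0) = 0
        have : E * ((1 - E) * (g : Module.End k V) * E0) = (E - E * E) * g * E0 := by noncomm_ring
        rw [this, hE1, sub_self, zero_mul, zero_mul]
      · show (1 - E) * g * E0 * (1 - E0) = 0
        have : (1 - E) * (g : Module.End k V) * E0 * (1 - E0) = (1 - E) * g * (E0 - E0 * E0) := by noncomm_ring
        rw [this, hE0i, sub_self, mul_zero]
      · funext γ
        show (1 - E) * γ.1 * ((1 - E) * g * E0) - (1 - E) * g * E0 * (γ.1 * E0) = 0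
        have a1 : (1 - E) * γ.1 * ((1 - E) * (g : Module.End k V) * E0) =
            (1 - E) * (γ.1 * g) * E0 - (γ.1 * E - E * γ.1 * E) * g * E0 := by noncomm_ring
        have a2 : (1 - E) * (g : Module.End k V) * E0 * (γ.1 * E0) = (1 - E) * g * (E0 * γ.1 * E0) := by
          noncomm_ring
        rw [a1, a2, hE2 γ.1 γ.2, sub_self, zero_mul, zero_mul, sub_zero, hE0s γ.1 γ.2, hcomm γ.1 γ.2 _ g.2]
        noncomm_ring)
    x0
    (by
      intro φ hφ
      rw [DD_apply, Prod.mk_eq_zero, Prod.mk_eq_zero] at hφ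
      obtain ⟨c1, c2, c3⟩ := hφ
      have c1' : ∀ v, E0 (φ v) = 0 := fun v => by
        have := congrArg (fun F : Module.End k V => F v) c1
        exact this
      have c2' : ∀ v, φ (E0 v) = φ v := fun v => by
        have h := congrArg (fun F : Module.End k V => F v) c2
        have h' : φ (v - E0 v) = 0 := h
        rw [map_sub, sub_eq_zero] at h'
        exact h'.symm
      have c3' : ∀ γ ∈ s, ∀ v, γ (φ v) - E0 (γ (φ v)) - φ (γ (E0 v)) = 0 := fun γ hγ v => by
        have h := congrFun c3 ⟨γ, hγ⟩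
        have h2 := congrArg (fun F : Module.End k V => F v) h
        exact h2
      obtain ⟨g, hgΛ, hgl⟩ := hg.2 φ (by
        intro γ hγ l hl
        have h := c3' γ hγ l
        rw [hE0l l hl] at h
        have h2 : γ (φ l) - φ (γ l) = E0 (γ (φ l)) := by
          rw [← sub_eq_zero]
          rw [← h]
          abel
        rw [h2]
        exact hE0m _)
      refine ⟨⟨g, hgΛ⟩, ?_⟩
      rw [TT_apply]
      ext v
      show g (E0 v) - E0 (g (E0 v)) = φ v
      have h := hgl (E0 v) (hE0m v)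
      have h2 := hE0l _ h
      rw [map_sub, c1', zero_sub, c2'] at h2
      rw [← sub_eq_zero]
      have h3 : g (E0 v) - E0 (g (E0 v)) - φ v = -(E0 (g (E0 v))) - (φ v - g (E0 v)) := by abel
      rw [h3, h2, sub_self])
    ⟨1, h1⟩
    (by
      rw [TT_apply]
      show (1 - E0) * 1 * E0 = 0
      have : (1 - E0) * 1 * E0 = E0 - E0 * E0 := by noncomm_ring
      rw [this, hE0i, sub_self])
  obtain ⟨f, hfB, hfT, hf0⟩ := key
  refine ⟨fun x => LinearMap.det ((f x : Module.End k V) : V →ₗ[k] V), det_mem s m Λ f hfB, ?_, x0, hE0r, ?_⟩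
  · intro x hx
    have hu : IsUnit ((f x : Module.End k V) : V →ₗ[k] V) :=
      (LinearMap.isUnit_iff_isUnit_det _).mpr (isUnit_iff_ne_zero.mpr hx)
    have hb : Function.Bijective ((f x : Module.End k V)) := (Module.End.isUnit_iff _).mp hu
    refine ⟨f x, (f x).2, hb, ?_⟩
    apply Submodule.eq_of_le_of_finrank_eq
    · rintro _ ⟨l, hl, rfl⟩
      have h2 := congrArg (fun F : Module.End k V => F l) (hfT x)
      have h3 : (f x : Module.End k V) (E0 l) - x.1 ((f x : Module.End k V) (E0 l)) = 0 := h2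
      rw [hE0l l hl, sub_eq_zero] at h3
      exact ⟨_, h3.symm⟩
    · rw [x.2.2.2, ← hm]
      exact (Submodule.equivMapOfInjective _ hb.1 L0).finrank_eq.symm
  · show LinearMap.det ((f x0 : Module.End k V) : V →ₗ[k] V) ≠ 0
    rw [hf0]
    show LinearMap.det (1 : V →ₗ[k] V) ≠ 0
    rw [map_one]
    exact one_ne_zero

/-- finiteness in each rank -/
lemma fin_m (s : Finset (Module.End k V)) (m : ℕ) (Λ : Submodule k (Module.End k V))
    (h1 : (1 : Module.End k V) ∈ Λ) (hcomm : ∀ γ ∈ s, ∀ g ∈ Λ, γ * g = g * γ) :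
    ∃ 𝓕 : Set (Submodule k V), 𝓕.Finite ∧ (∀ L ∈ 𝓕, Good (s : Set (Module.End k V)) Λ L) ∧
      ∀ L, Good (s : Set (Module.End k V)) Λ L → finrank k L = m →
        ∃ L0 ∈ 𝓕, ∃ g ∈ Λ, Function.Bijective g ∧ L0.map g = L := by
  classical
  let Δ : Set (BB s m) := {δ | ∃ L0 : Submodule k V, Good (s : Set (Module.End k V)) Λ L0 ∧
    ∀ x : XX s m, δ.1 x ≠ 0 → ∃ g ∈ Λ, Function.Bijective g ∧ L0.map g = LinearMap.range x.1}
  haveI := BB_noeth s m
  obtain ⟨t, ht, hspan⟩ := (Submodule.fg_span_iff_fg_span_finset_subset Δ).mp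
    (IsNoetherian.noetherian (Submodule.span (BB s m) Δ))
  have hch : ∀ δ : t, ∃ L0 : Submodule k V, Good (s : Set (Module.End k V)) Λ L0 ∧
    ∀ x : XX s m, δ.1.1 x ≠ 0 → ∃ g ∈ Λ, Function.Bijective g ∧ L0.map g = LinearMap.range x.1 :=
    fun δ => ht δ.2
  choose F hF1 hF2 using hch
  refine ⟨Set.range F, Set.finite_range F, ?_, ?_⟩
  · rintro _ ⟨δ, rfl⟩
    exact hF1 δ
  · intro L hL hLm
    obtain ⟨δ, hδB, hδ, x, hxL, hx0⟩ := loc s m Λ h1 hcomm L hL hLm
    have hmem : (⟨δ, hδB⟩ : BB s m) ∈ Submodule.span (BB s m) (t : Set (BB s m)) := by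
      rw [← hspan]
      exact Submodule.subset_span ⟨L, hL, hδ⟩
    by_contra hcon
    have hall : ∀ d ∈ Submodule.span (BB s m) (t : Set (BB s m)), d.1 x = 0 := by
      intro d hd
      induction hd using Submodule.span_induction with
      | mem d hd =>
        by_contra hne
        apply hcon
        obtain ⟨g, hg1, hg2, hg3⟩ := hF2 ⟨d, hd⟩ x hne
        exact ⟨F ⟨d, hd⟩, ⟨_, rfl⟩, g, hg1, hg2, by rw [hg3, hxL]⟩
      | zero => rfl
      | add a b _ _ ha hb =>
        show a.1 x + b.1 x = 0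
        rw [ha, hb, add_zero]
      | smul a b _ hb =>
        show a.1 x * b.1 x = 0
        rw [hb, mul_zero]
    exact hx0 (hall _ hmem)

end FG

theorem finite_good {k V : Type*} [Field k] [AddCommGroup V] [Module k V] [FiniteDimensional k V]
    (Γ : Set (Module.End k V)) (Λ : Submodule k (Module.End k V))
    (h1 : (1 : Module.End k V) ∈ Λ)
    (hcomm : ∀ γ ∈ Γ, ∀ g ∈ Λ, γ * g = g * γ) :
    ∃ 𝓕 : Set (Submodule k V), 𝓕.Finite ∧ (∀ L ∈ 𝓕, Good Γ Λ L) ∧
      ∀ L, Good Γ Λ L → ∃ L0 ∈ 𝓕, ∃ g ∈ Λ, Function.Bijective g ∧ L0.map g = L := by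
  classical
  obtain ⟨s, hs, hspan⟩ := (Submodule.fg_span_iff_fg_span_finset_subset Γ).mp
    (IsNoetherian.noetherian (Submodule.span k Γ))
  have hgood : ∀ L : Submodule k V, Good Γ Λ L ↔ Good (s : Set (Module.End k V)) Λ L := by
    intro L
    rw [FG.good_span Γ, FG.good_span (s : Set (Module.End k V)), hspan]
  have hcomm' : ∀ γ ∈ s, ∀ g ∈ Λ, γ * g = g * γ := fun γ hγ => hcomm γ (hs hγ)
  choose F hF1 hF2 hF3 using fun m : ℕ => FG.fin_m s m Λ h1 hcomm'
  refine ⟨⋃ m ∈ Set.Iic (Module.finrank k V), F m, ?_, ?_, ?_⟩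
  · exact Set.Finite.biUnion (Set.finite_Iic _) fun m _ => hF1 m
  · intro L hL
    rw [Set.mem_iUnion₂] at hL
    obtain ⟨m, _, hL⟩ := hL
    exact (hgood L).mpr (hF2 m L hL)
  · intro L hL
    obtain ⟨L0, hL0, g, hg⟩ := hF3 (Module.finrank k L) L ((hgood L).mp hL) rfl
    refine ⟨L0, ?_, g, hg⟩
    rw [Set.mem_iUnion₂]
    exact ⟨_, Submodule.finrank_le L, hL0⟩

end Pool.Agent.T2H38.RM
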