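import Mathlib
import Pool.Agent.T2H38.RM.Defs

set_option autoImplicit false
universe u v

open IsLocalRing

namespace Pool.Agent.T2H38.RM

namespace RANK

lemma length_add {R : Type*} [CommRing R] {X : Type*} [AddCommGroup X] [Module R X]
    (Y : Submodule R X) : Module.length R X = Module.length R Y + Module.length R (X ⧸ Y) :=
  Module.length_eq_add_of_exact Y.subtype Y.mkQ Y.subtype_injective Y.mkQ_surjective
    (LinearMap.exact_subtype_mkQ Y)

lemma fin_of_killed {R : Type*} [CommRing R] [IsLocalRing R]
    {X : Type*} [AddCommGroup X] [Module R X] [Module.Finite R X]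
    (h : ∀ a ∈ maximalIdeal R, ∀ x : X, a • x = 0) : Module.length R X ≠ ⊤ := by
  obtain ⟨k, f, hf⟩ := Module.Finite.exists_fin' R X
  let b : Fin k → X := fun i => f (Pi.single i 1)
  let φ : Fin k → ((R ⧸ maximalIdeal R) →ₗ[R] X) := fun i =>
    (maximalIdeal R).liftQ (LinearMap.toSpanSingleton R X (b i)) (by
      intro a ha
      rw [LinearMap.mem_ker, LinearMap.toSpanSingleton_apply]
      exact h a ha _)
  let Φ : (Fin k → R ⧸ maximalIdeal R) →ₗ[R] X := ∑ i, (φ i).comp (LinearMap.proj i)
  have hΦ : Function.Surjective Φ := by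
    intro x
    obtain ⟨c, rfl⟩ := hf x
    refine ⟨fun i => Submodule.Quotient.mk (c i), ?_⟩
    have h1 : f c = ∑ i, c i • b i := by
      conv_lhs => rw [← Finset.univ_sum_single c]
      rw [map_sum]
      refine Finset.sum_congr rfl fun i _ => ?_
      have : (Pi.single i (c i) : Fin k → R) = c i • Pi.single i (1 : R) := by
        rw [← Pi.single_smul, smul_eq_mul, mul_one]
      rw [this, map_smul]
    rw [h1]
    simp only [Φ, LinearMap.sum_apply, LinearMap.comp_apply, LinearMap.proj_apply]
    refine Finset.sum_congr rfl fun i _ => ?_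
    simp only [φ]
    exact Submodule.liftQ_apply _ _ _
  haveI : IsSimpleModule R (R ⧸ maximalIdeal R) :=
    isSimpleModule_iff_isCoatom.mpr (maximalIdeal.isMaximal R).out
  have h2 := Module.length_le_of_surjective Φ hΦ
  have h3 : Module.length R (Fin k → R ⧸ maximalIdeal R) = k := by
    rw [Module.length_pi, Module.length_eq_one]
    simp
  rw [h3] at h2
  exact ne_top_of_le_ne_top (ENat.coe_ne_top k) h2

lemma fin_of_pow {R : Type*} [CommRing R] [IsLocalRing R] [IsNoetherianRing R] (n : ℕ) :
    ∀ {X : Type u} [AddCommGroup X] [Module R X] [Module.Finite R X],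
    (∀ a ∈ maximalIdeal R ^ n, ∀ x : X, a • x = 0) → Module.length R X ≠ ⊤ := by
  induction n with
  | zero =>
    intro X _ _ _ h
    have : Subsingleton X := by
      refine ⟨fun x y => ?_⟩
      have h1 : ∀ z : X, z = 0 := fun z => by
        have := h 1 (by simp) z
        rwa [one_smul] at this
      rw [h1 x, h1 y]
    rw [Module.length_eq_zero]
    exact ENat.zero_ne_top
  | succ n ih =>
    intro X _ _ _ h
    haveI : IsNoetherian R X := isNoetherian_of_isNoetherianRing_of_finite R X
    set Y : Submodule R X := (maximalIdeal R ^ n) • ⊤ with hY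
    rw [length_add Y]
    have h1 : Module.length R Y ≠ ⊤ := by
      refine fin_of_killed ?_
      rintro a ha ⟨y, hy⟩
      apply Subtype.ext
      change a • y = 0
      rw [hY] at hy
      refine Submodule.smul_induction_on (p := fun y => a • y = 0) hy ?_ ?_
      · intro r hr x _
        rw [smul_smul, mul_comm]
        exact h _ (by rw [pow_succ]; exact Ideal.mul_mem_mul hr ha) x
      · intro x y hx hy
        rw [smul_add, hx, hy, add_zero]
    have h2 : Module.length R (X ⧸ Y) ≠ ⊤ := by
      refine ih ?_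
      intro a ha x
      obtain ⟨x, rfl⟩ := Submodule.Quotient.mk_surjective _ x
      rw [← Submodule.Quotient.mk_smul, Submodule.Quotient.mk_eq_zero]
      exact Submodule.smul_mem_smul ha trivial
    exact WithTop.add_ne_top.mpr ⟨h1, h2⟩

lemma growth {R : Type*} [CommRing R] [IsLocalRing R] [IsNoetherianRing R]
    {S : Type*} [AddCommGroup S] [Module R S] [Module.Finite R S]
    (hS : ∀ n : ℕ, (maximalIdeal R ^ n) • (⊤ : Submodule R S) ≠ ⊥) (n : ℕ) :
    (n : ℕ∞) ≤ Module.length R (S ⧸ ((maximalIdeal R ^ n) • (⊤ : Submodule R S))) := by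
  haveI : IsNoetherian R S := isNoetherian_of_isNoetherianRing_of_finite R S
  induction n with
  | zero => simp
  | succ n ih =>
    set A : Submodule R S := (maximalIdeal R ^ n) • ⊤ with hA
    set B : Submodule R S := (maximalIdeal R ^ (n + 1)) • ⊤ with hB
    have hBA : B ≤ A := by
      rw [hA, hB]
      exact Submodule.smul_mono_left (Ideal.pow_le_pow_right (Nat.le_succ n))
    have hne : ¬ A ≤ B := by
      intro hle
      have h1 : A ≤ (maximalIdeal R) • A := by
        refine hle.trans ?_
        rw [hB, hA, pow_succ', Submodule.mul_smul]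
      have h2 : A = ⊥ := Submodule.eq_bot_of_le_smul_of_le_jacobson_bot (maximalIdeal R) A
        (IsNoetherian.noetherian A) h1 (maximalIdeal_le_jacobson ⊥)
      exact hS n h2
    obtain ⟨x, hxA, hxB⟩ := SetLike.not_le_iff_exists.mp hne
    let p : (S ⧸ B) →ₗ[R] (S ⧸ A) := Submodule.factor hBA
    have hp : Function.Surjective p := Submodule.factor_surjective hBA
    have h1 := Module.length_eq_add_of_exact (LinearMap.ker p).subtype p
      (Submodule.subtype_injective _) hp (LinearMap.exact_subtype_ker_map p)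
    have hnt : Nontrivial (LinearMap.ker p) := by
      refine ⟨⟨⟨Submodule.Quotient.mk x, ?_⟩, 0, ?_⟩⟩
      · rw [LinearMap.mem_ker]
        change Submodule.factor hBA (Submodule.Quotient.mk x) = 0
        have : Submodule.factor hBA (Submodule.Quotient.mk x) = Submodule.Quotient.mk x := rfl
        rw [this, Submodule.Quotient.mk_eq_zero]
        exact hxA
      · intro h
        have := congrArg Subtype.val h
        exact hxB ((Submodule.Quotient.mk_eq_zero _).mp this)
    have h2 : 1 ≤ Module.length R (LinearMap.ker p) := Order.one_le_iff_pos.mpr Module.length_pos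
    rw [h1]
    push_cast
    rw [add_comm]
    exact add_le_add h2 ih

end RANK

theorem rank_le {R S : Type u} [CommRing R] [IsLocalRing R] [IsNoetherianRing R]
    [CommRing S] [Algebra R S] [Module.Finite R S]
    (hS : ∀ n : ℕ, (maximalIdeal R ^ n) • (⊤ : Submodule R S) ≠ ⊥)
    (c : R) (hn : ∃ n : ℕ, maximalIdeal R ^ n ≤ Ideal.span {c})
    (r : ℕ) (L : Submodule R (Fin r → S)) (hcL : ∀ f : Fin r → S, c • f ∈ L)
    {M : Type u} [AddCommGroup M] [Module R M] [Module.Finite R M]
    (g : M →ₗ[R] L) (hg : Function.Surjective g)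
    (N : ℕ) (e : ℝ) (he : e ≤ (N : ℝ))
    (hlim : Filter.Tendsto (fun n : ℕ =>
      ((1 : ℕ).factorial : ℝ) * ((Module.length R
        (M ⧸ ((maximalIdeal R ^ n) • (⊤ : Submodule R M)))).toNat : ℝ) / ((n : ℝ) ^ 1))
      Filter.atTop (nhds e)) : r ≤ N := by
  -- finiteness
  have hMfin : ∀ n : ℕ, Module.length R (M ⧸ ((maximalIdeal R ^ n) • (⊤ : Submodule R M))) ≠ ⊤ := by
    intro n
    refine RANK.fin_of_pow n ?_
    intro a ha x
    obtain ⟨x, rfl⟩ := Submodule.Quotient.mk_surjective _ x
    rw [← Submodule.Quotient.mk_smul, Submodule.Quotient.mk_eq_zero]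
    exact Submodule.smul_mem_smul ha trivial
  obtain ⟨n0, hn0⟩ := hn
  have hLfin : Module.length R ((Fin r → S) ⧸ L) ≠ ⊤ := by
    refine RANK.fin_of_pow n0 ?_
    intro a ha x
    obtain ⟨x, rfl⟩ := Submodule.Quotient.mk_surjective _ x
    rw [← Submodule.Quotient.mk_smul, Submodule.Quotient.mk_eq_zero]
    obtain ⟨b, rfl⟩ := Ideal.mem_span_singleton'.mp (hn0 ha)
    rw [mul_smul]
    exact L.smul_mem _ (hcL x)
  -- key inequality
  have key : ∀ n : ℕ, (r : ℕ∞) * n ≤
      Module.length R (M ⧸ ((maximalIdeal R ^ n) • (⊤ : Submodule R M))) +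
        Module.length R ((Fin r → S) ⧸ L) := by
    intro n
    set A : Submodule R S := (maximalIdeal R ^ n) • ⊤ with hA
    set Q : Submodule R (Fin r → S) := (maximalIdeal R ^ n) • ⊤ with hQ
    -- lower bound
    let q : (Fin r → S) →ₗ[R] (Fin r → S ⧸ A) := LinearMap.pi fun i => A.mkQ.comp (LinearMap.proj i)
    have hq : Q ≤ LinearMap.ker q := by
      rw [hQ, Submodule.smul_le]
      intro a ha f _
      rw [LinearMap.mem_ker]
      funext i
      change A.mkQ (a • f i) = 0
      rw [Submodule.mkQ_apply, Submodule.Quotient.mk_eq_zero]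
      exact Submodule.smul_mem_smul ha trivial
    have hqs : Function.Surjective (Q.liftQ q hq) := by
      intro f
      choose s hs using fun i => A.mkQ_surjective (f i)
      refine ⟨Submodule.Quotient.mk s, ?_⟩
      rw [Submodule.liftQ_apply]
      funext i
      exact hs i
    have h1 : (r : ℕ∞) * n ≤ Module.length R ((Fin r → S) ⧸ Q) := by
      refine le_trans ?_ (Module.length_le_of_surjective _ hqs)
      rw [Module.length_pi]
      have : ENat.card (Fin r) = r := by simp
      rw [this]
      exact mul_le_mul_right (RANK.growth hS n) _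
    -- upper bound
    let φ : M →ₗ[R] ((Fin r → S) ⧸ Q) := Q.mkQ.comp (L.subtype.comp g)
    have hφ : (maximalIdeal R ^ n) • (⊤ : Submodule R M) ≤ LinearMap.ker φ := by
      rw [Submodule.smul_le]
      intro a ha m _
      rw [LinearMap.mem_ker, map_smul]
      change a • (Submodule.Quotient.mk (p := Q) (g m : Fin r → S)) = 0
      rw [← Submodule.Quotient.mk_smul, Submodule.Quotient.mk_eq_zero]
      exact Submodule.smul_mem_smul ha trivial
    let ψ := ((maximalIdeal R ^ n) • (⊤ : Submodule R M)).liftQ φ hφ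
    rw [RANK.length_add (LinearMap.range ψ)] at h1
    have h2 : Module.length R (LinearMap.range ψ) ≤
        Module.length R (M ⧸ ((maximalIdeal R ^ n) • (⊤ : Submodule R M))) :=
      Module.length_le_of_surjective ψ.rangeRestrict ψ.surjective_rangeRestrict
    have h3 : Module.length R (((Fin r → S) ⧸ Q) ⧸ LinearMap.range ψ) ≤
        Module.length R ((Fin r → S) ⧸ L) := by
      let χ : (Fin r → S) →ₗ[R] (((Fin r → S) ⧸ Q) ⧸ LinearMap.range ψ) :=
        (LinearMap.range ψ).mkQ.comp Q.mkQ
      have hχ : L ≤ LinearMap.ker χ := by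
        intro l hl
        obtain ⟨m, hm⟩ := hg ⟨l, hl⟩
        rw [LinearMap.mem_ker]
        change (LinearMap.range ψ).mkQ (Q.mkQ l) = 0
        rw [Submodule.mkQ_apply, Submodule.Quotient.mk_eq_zero]
        refine ⟨Submodule.Quotient.mk m, ?_⟩
        change φ m = _
        change Q.mkQ (g m : Fin r → S) = _
        rw [hm]
      have hχs : Function.Surjective (L.liftQ χ hχ) := by
        intro x
        obtain ⟨x, rfl⟩ := Submodule.Quotient.mk_surjective _ x
        obtain ⟨x, rfl⟩ := Submodule.Quotient.mk_surjective _ x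
        exact ⟨Submodule.Quotient.mk x, rfl⟩
      exact Module.length_le_of_surjective _ hχs
    exact h1.trans (add_le_add h2 h3)
  -- pass to real numbers
  obtain ⟨C, hC⟩ := ENat.ne_top_iff_exists.mp hLfin
  have key2 : ∀ n : ℕ, (r : ℝ) * n ≤
      ((Module.length R (M ⧸ ((maximalIdeal R ^ n) • (⊤ : Submodule R M)))).toNat : ℝ) + C := by
    intro n
    have h := key n
    obtain ⟨a, ha⟩ := ENat.ne_top_iff_exists.mp (hMfin n)
    rw [← ha, ← hC] at h
    rw [← ha, ENat.toNat_coe]
    have h' : r * n ≤ a + C := by exact_mod_cast h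
    exact_mod_cast h'
  have hr : (r : ℝ) ≤ e := by
    have ht : Filter.Tendsto (fun n : ℕ => (r : ℝ) - C / (n : ℝ)) Filter.atTop (nhds ((r : ℝ) - 0)) :=
      tendsto_const_nhds.sub (tendsto_const_div_atTop_nhds_zero_nat (C : ℝ))
    rw [sub_zero] at ht
    refine le_of_tendsto_of_tendsto ht hlim ?_
    filter_upwards [Filter.eventually_gt_atTop 0] with n hn
    have hn' : (0 : ℝ) < n := by exact_mod_cast hn
    have h := key2 n
    rw [Nat.factorial_one, Nat.cast_one, one_mul, pow_one, le_div_iff₀ hn', sub_mul,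
      div_mul_cancel₀ _ hn'.ne']
    linarith
  exact_mod_cast hr.trans he

end Pool.Agent.T2H38.RM
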