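import Pool.Agent.T2H38.RM.FD

/-!
# Package SUBL: finitely many rigid sublattices
-/

set_option autoImplicit false
universe u v

open IsLocalRing

namespace Pool.Agent.T2H38.RM

namespace PkgSUBL

section
variable {k : Type v} {R F V : Type u} [Field k] [CommRing R] [Algebra k R]
  [AddCommGroup F] [Module R F] [AddCommGroup V] [Module R V] [Module k V] [IsScalarTower k R V]

/-- multiplication by `r` as a `k`-linear map -/
def T (k : Type v) {R V : Type u} [Field k] [CommRing R] [Algebra k R]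
    [AddCommGroup V] [Module R V] [Module k V] [IsScalarTower k R V] (r : R) :
    Module.End k V := (LinearMap.lsmul R V r).restrictScalars k

theorem T_apply (r : R) (v : V) : T k r v = r • v := rfl

/-- the induced endomorphisms -/
def Lam (k : Type v) {R F V : Type u} [Field k] [CommRing R] [Algebra k R]
    [AddCommGroup F] [Module R F] [AddCommGroup V] [Module R V] [Module k V]
    [IsScalarTower k R V] (π : F →ₗ[R] V) : Submodule k (Module.End k V) where
  carrier := {g | ∃ g' : F →ₗ[R] F, ∀ f, g (π f) = π (g' f)}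
  add_mem' := by
    rintro a b ⟨a', ha⟩ ⟨b', hb⟩
    refine ⟨a' + b', fun f => ?_⟩
    rw [LinearMap.add_apply, ha, hb, LinearMap.add_apply, map_add]
  zero_mem' := ⟨0, fun f => by simp⟩
  smul_mem' := by
    rintro t a ⟨a', ha⟩
    refine ⟨(algebraMap k R t) • a', fun f => ?_⟩
    rw [LinearMap.smul_apply, ha, LinearMap.smul_apply, map_smul, algebraMap_smul]

theorem mem_Lam {π : F →ₗ[R] V} {g : Module.End k V} :
    g ∈ Lam k π ↔ ∃ g' : F →ₗ[R] F, ∀ f, g (π f) = π (g' f) := Iff.rfl

/-- image of a sublattice -/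
def bar (k : Type v) {R F V : Type u} [Field k] [CommRing R] [Algebra k R]
    [AddCommGroup F] [Module R F] [AddCommGroup V] [Module R V] [Module k V]
    [IsScalarTower k R V] (π : F →ₗ[R] V) (L : Submodule R F) : Submodule k V :=
  (L.map π).restrictScalars k

theorem mem_bar {π : F →ₗ[R] V} {L : Submodule R F} {v : V} :
    v ∈ bar k π L ↔ ∃ l ∈ L, π l = v := Iff.rfl

theorem pi_mem_bar {π : F →ₗ[R] V} {L : Submodule R F} (c : R)
    (hker : ∀ x, π x = 0 ↔ ∃ y, c • y = x) (hL : ∀ f : F, c • f ∈ L) {x : F} :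
    π x ∈ bar k π L ↔ x ∈ L := by
  constructor
  · rintro ⟨l, hl, hlx⟩
    have h1 : π (x - l) = 0 := by rw [map_sub, hlx, sub_self]
    obtain ⟨y, hy⟩ := (hker _).1 h1
    have h2 : x = c • y + l := by rw [hy]; abel
    rw [h2]
    exact L.add_mem (hL y) hl
  · intro hx
    exact ⟨x, hx, rfl⟩

theorem good_of_rigid (π : F →ₗ[R] V) (hπ : Function.Surjective π) (c : R)
    (hker : ∀ x, π x = 0 ↔ ∃ y, c • y = x) (L : Submodule R F)
    (hL : ∀ f : F, c • f ∈ L)
    (hext : ∀ h : L →ₗ[R] F, ∃ h' : F →ₗ[R] F, ∀ l : L, h' l = h l)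
    (hrig : Rigid R L) : Good (Set.range (T k : R → Module.End k V)) (Lam k π) (bar k π L) := by
  have hkl : ∀ x : F, π x = 0 → x ∈ L := by
    intro x hx
    obtain ⟨y, hy⟩ := (hker x).1 hx
    rw [← hy]
    exact hL y
  refine ⟨?_, ?_⟩
  · rintro _ ⟨r, rfl⟩ _ ⟨l, hl, rfl⟩
    exact ⟨r • l, L.smul_mem r hl, by rw [map_smul]; rfl⟩
  · intro φ hφ
    -- a section of `π`
    choose σ hσ using hπ
    -- the map `ψ : L → F / L`
    have hmk : ∀ x y : F, π x - π y ∈ bar k π L → L.mkQ x = L.mkQ y := by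
      intro x y hxy
      rw [← map_sub, pi_mem_bar c hker hL] at hxy
      rw [← sub_eq_zero, ← map_sub]
      exact (Submodule.Quotient.mk_eq_zero L).2 hxy
    let ψ : L →ₗ[R] (F ⧸ L) :=
      { toFun := fun l => L.mkQ (σ (φ (π (l : F))))
        map_add' := by
          intro a b
          rw [← map_add]
          apply hmk
          rw [map_add, hσ, hσ, hσ, Submodule.coe_add, map_add, map_add, sub_self]
          exact Submodule.zero_mem _
        map_smul' := by
          intro r a
          rw [RingHom.id_apply, ← map_smul]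
          apply hmk
          rw [map_smul, hσ, hσ, Submodule.coe_smul, map_smul]
          have h1 := hφ (T k r) ⟨r, rfl⟩ (π (a : F)) ⟨a, a.2, rfl⟩
          rw [T_apply, T_apply] at h1
          have h2 := Submodule.neg_mem _ h1
          rwa [neg_sub] at h2 }
    have hψ : ∀ l : L, ψ l = L.mkQ (σ (φ (π (l : F)))) := fun _ => rfl
    -- the pullback
    let E : Submodule R (F × L) :=
      LinearMap.ker (L.mkQ ∘ₗ LinearMap.fst R F L - ψ ∘ₗ LinearMap.snd R F L)
    have hE : ∀ p : F × L, p ∈ E ↔ L.mkQ p.1 = ψ p.2 := by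
      intro p
      rw [LinearMap.mem_ker, LinearMap.sub_apply, sub_eq_zero]
      rfl
    let f : L →ₗ[R] E := LinearMap.codRestrict E (LinearMap.prod L.subtype 0) (by
      intro l
      rw [hE]
      change L.mkQ (l : F) = ψ 0
      rw [map_zero]
      exact (Submodule.Quotient.mk_eq_zero L).2 l.2)
    let g : E →ₗ[R] L := LinearMap.snd R F L ∘ₗ E.subtype
    have hf : ∀ l : L, ((f l : F × L)) = ((l : F), (0 : L)) := fun _ => rfl
    have hg : ∀ e : E, g e = (e : F × L).2 := fun _ => rfl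
    have hfi : Function.Injective f := by
      intro a b hab
      have h1 : ((f a : F × L)) = f b := by rw [hab]
      rw [hf, hf] at h1
      exact Subtype.ext (Prod.mk.inj h1).1
    have hgs : Function.Surjective g := by
      intro l
      refine ⟨⟨(σ (φ (π (l : F))), l), ?_⟩, rfl⟩
      rw [hE]
      rfl
    have hfg : LinearMap.range f = LinearMap.ker g := by
      ext e
      rw [LinearMap.mem_range, LinearMap.mem_ker, hg]
      constructor
      · rintro ⟨l, rfl⟩
        rfl
      · intro he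
        have h1 := (hE e).1 e.2
        rw [he, map_zero] at h1
        have h2 : (e : F × L).1 ∈ L := (Submodule.Quotient.mk_eq_zero L).1 h1
        refine ⟨⟨_, h2⟩, ?_⟩
        apply Subtype.ext
        rw [hf]
        exact Prod.ext rfl he.symm
    obtain ⟨s, hs⟩ := hrig E f g hfi hgs hfg
    let h : L →ₗ[R] F := LinearMap.fst R F L ∘ₗ E.subtype ∘ₗ s
    have hh : ∀ l : L, L.mkQ (h l) = L.mkQ (σ (φ (π (l : F)))) := by
      intro l
      have h1 := (hE (s l)).1 (s l).2
      have h2 : (s l : F × L).2 = l := by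
        have h3 := LinearMap.congr_fun hs l
        exact h3
      rw [h2, hψ] at h1
      exact h1
    obtain ⟨h', hh'⟩ := hext h
    -- the induced endomorphism of `V`
    have hker' : ∀ x y : F, π x = π y → π (h' x) = π (h' y) := by
      intro x y hxy
      have h1 : π (x - y) = 0 := by rw [map_sub, hxy, sub_self]
      obtain ⟨z, hz⟩ := (hker _).1 h1
      have h2 : π (h' (x - y)) = 0 := by
        rw [← hz, map_smul]
        exact (hker _).2 ⟨h' z, rfl⟩
      rwa [map_sub, map_sub, sub_eq_zero] at h2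
    let gR : V →ₗ[R] V :=
      { toFun := fun v => π (h' (σ v))
        map_add' := by
          intro a b
          rw [← map_add, ← map_add]
          apply hker'
          rw [hσ, map_add, hσ, hσ]
        map_smul' := by
          intro r a
          rw [RingHom.id_apply, ← map_smul, ← map_smul]
          apply hker'
          rw [hσ, map_smul, hσ] }
    refine ⟨gR.restrictScalars k, ⟨h', ?_⟩, ?_⟩
    · intro x
      change π (h' (σ (π x))) = π (h' x)
      apply hker'
      rw [hσ]
    · rintro _ ⟨l, hl, rfl⟩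
      change φ (π l) - π (h' (σ (π l))) ∈ bar k π L
      have h1 : π (h' (σ (π l))) = π (h' l) := hker' _ _ (hσ _)
      have h2 : h' l = h ⟨l, hl⟩ := hh' ⟨l, hl⟩
      rw [h1, h2, ← hσ (φ (π l)), ← map_sub, pi_mem_bar c hker hL]
      have h3 := hh ⟨l, hl⟩
      have h4 : L.mkQ (σ (φ (π l)) - h ⟨l, hl⟩) = 0 := by
        rw [map_sub, h3, sub_self]
      exact (Submodule.Quotient.mk_eq_zero L).1 h4

/-- preimage of a subspace -/
def pre {π : F →ₗ[R] V} (W : Submodule k V) : Submodule R F :=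
  Submodule.span R {x | π x ∈ W}

theorem mem_pre {π : F →ₗ[R] V} {W : Submodule k V}
    (hW : ∀ γ ∈ Set.range (T k : R → Module.End k V), ∀ l ∈ W, γ l ∈ W) {x : F} :
    x ∈ pre (π := π) W ↔ π x ∈ W := by
  constructor
  · intro hx
    refine Submodule.span_induction ?_ ?_ ?_ ?_ hx
    · intro y hy
      exact hy
    · rw [map_zero]
      exact W.zero_mem
    · intro y z _ _ hy hz
      rw [map_add]
      exact W.add_mem hy hz
    · intro r y _ hy
      rw [map_smul]
      exact hW (T k r) ⟨r, rfl⟩ _ hy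
  · intro hx
    exact Submodule.subset_span hx

theorem equiv_of_good [IsLocalRing R] [IsNoetherianRing R] [Module.Finite R F]
    (π : F →ₗ[R] V) (hπ : Function.Surjective π) (c : R) (hc : c ∈ maximalIdeal R)
    (hker : ∀ x, π x = 0 ↔ ∃ y, c • y = x) (L : Submodule R F)
    (hL : ∀ f : F, c • f ∈ L) (L0 : Submodule k V)
    (hL0 : ∀ γ ∈ Set.range (T k : R → Module.End k V), ∀ l ∈ L0, γ l ∈ L0)
    (g : Module.End k V) (hg : g ∈ Lam k π) (hbij : Function.Bijective g)
    (hmap : L0.map g = bar k π L) : Nonempty (L ≃ₗ[R] pre (π := π) L0) := by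
  obtain ⟨g', hg'⟩ := hg
  have hsurj : Function.Surjective g' := by
    rw [← LinearMap.range_eq_top, eq_top_iff]
    refine Submodule.le_of_le_smul_of_le_jacobson_bot (I := maximalIdeal R)
      Module.Finite.fg_top (IsLocalRing.maximalIdeal_le_jacobson _) ?_
    intro x _
    obtain ⟨v, hv⟩ := hbij.2 (π x)
    obtain ⟨y, rfl⟩ := hπ v
    rw [hg'] at hv
    have h1 : π (x - g' y) = 0 := by rw [map_sub, hv, sub_self]
    obtain ⟨z, hz⟩ := (hker _).1 h1
    have h2 : x = g' y + c • z := by rw [hz]; abel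
    rw [h2]
    exact Submodule.add_mem_sup ⟨y, rfl⟩ (Submodule.smul_mem_smul hc trivial)
  have hinj : Function.Injective g' := IsNoetherian.injective_of_surjective_endomorphism g' hsurj
  let e : F ≃ₗ[R] F := LinearEquiv.ofBijective g' ⟨hinj, hsurj⟩
  have he : ∀ x, e x = g' x := fun _ => rfl
  have hEq : (pre (π := π) L0).map (e : F →ₗ[R] F) = L := by
    ext y
    rw [Submodule.mem_map]
    constructor
    · rintro ⟨x, hx, rfl⟩
      rw [mem_pre hL0] at hx
      have h1 : π (g' x) ∈ bar k π L := by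
        rw [← hg', ← hmap]
        exact ⟨π x, hx, rfl⟩
      exact (pi_mem_bar c hker hL).1 h1
    · intro hy
      obtain ⟨x, rfl⟩ := hsurj y
      refine ⟨x, ?_, rfl⟩
      rw [mem_pre hL0]
      have h1 : π (g' x) ∈ bar k π L := (pi_mem_bar c hker hL).2 hy
      rw [← hg', ← hmap] at h1
      obtain ⟨v, hv, hvx⟩ := h1
      rw [← hbij.1 hvx]
      exact hv
  exact ⟨((e.submoduleMap (pre (π := π) L0)).trans (LinearEquiv.ofEq _ _ hEq)).symm⟩

end

end PkgSUBL

open PkgSUBL in
/-- T3, from `finite_good` (as a hypothesis for the field `k` and all spaces in `Type u`) -/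
theorem finite_rigid_sublattices_of {k : Type v} {R F : Type u} [Field k] [CommRing R]
    (hFG : ∀ {V : Type u} [AddCommGroup V] [Module k V] [FiniteDimensional k V]
      (Γ : Set (Module.End k V)) (Λ : Submodule k (Module.End k V)),
      (1 : Module.End k V) ∈ Λ → (∀ γ ∈ Γ, ∀ g ∈ Λ, γ * g = g * γ) →
      ∃ 𝓕 : Set (Submodule k V), 𝓕.Finite ∧ (∀ L ∈ 𝓕, Good Γ Λ L) ∧
        ∀ L, Good Γ Λ L → ∃ L0 ∈ 𝓕, ∃ g ∈ Λ, Function.Bijective g ∧ L0.map g = L)
    [IsLocalRing R] [IsNoetherianRing R] [Algebra k R] [Module.Finite k (ResidueField R)]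
    [AddCommGroup F] [Module R F] [Module.Finite R F]
    (c : R) (hc : c ∈ maximalIdeal R) (hn : ∃ n : ℕ, maximalIdeal R ^ n ≤ Ideal.span {c}) :
    ∃ (n : ℕ) (G : Fin n → Submodule R F), ∀ L : Submodule R F,
      (∀ f : F, c • f ∈ L) →
      (∀ h : L →ₗ[R] F, ∃ h' : F →ₗ[R] F, ∀ l : L, h' l = h l) →
      Rigid R L → ∃ i, Nonempty (L ≃ₗ[R] G i) := by
  classical
  let cF : Submodule R F := LinearMap.range (LinearMap.lsmul R F c)
  let π : F →ₗ[R] (F ⧸ cF) := cF.mkQ
  have hπ : Function.Surjective π := cF.mkQ_surjective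
  have hker : ∀ x, π x = 0 ↔ ∃ y, c • y = x := fun x => Submodule.Quotient.mk_eq_zero cF
  letI : Module k (F ⧸ cF) := Module.compHom (F ⧸ cF) (algebraMap k R)
  haveI : IsScalarTower k R (F ⧸ cF) := ⟨fun a r v => by
    change (a • r) • v = algebraMap k R a • (r • v)
    rw [Algebra.smul_def, mul_smul]⟩
  haveI : FiniteDimensional k (F ⧸ cF) := by
    obtain ⟨n, hn⟩ := hn
    refine finiteDimensional_of_pow (R := R) n ?_
    intro a ha m
    obtain ⟨b, hb⟩ := Ideal.mem_span_singleton'.1 (hn ha)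
    obtain ⟨x, rfl⟩ := hπ m
    rw [← map_smul, hker]
    exact ⟨b • x, by rw [smul_smul, mul_comm, hb]⟩
  obtain ⟨𝓕, hfin, hgood, hall⟩ := hFG (V := F ⧸ cF)
    (Set.range (T k : R → Module.End k (F ⧸ cF))) (Lam k π)
    (mem_Lam.2 ⟨LinearMap.id, fun f => rfl⟩)
    (by
      rintro _ ⟨r, rfl⟩ g ⟨g', hg'⟩
      ext v
      obtain ⟨x, rfl⟩ := hπ v
      change r • g (π x) = g (r • π x)
      rw [hg', ← map_smul, ← map_smul, ← map_smul, hg'])
  haveI : Finite 𝓕 := hfin
  obtain ⟨n, ⟨eq⟩⟩ := Finite.exists_equiv_fin 𝓕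
  refine ⟨n, fun i => pre (π := π) (eq.symm i : Submodule k (F ⧸ cF)), ?_⟩
  intro L hL hext hrig
  obtain ⟨L0, hL0, g, hg, hbij, hmap⟩ := hall _ (good_of_rigid (k := k) π hπ c hker L hL hext hrig)
  refine ⟨eq ⟨L0, hL0⟩, ?_⟩
  obtain ⟨e⟩ := equiv_of_good (k := k) π hπ c hc hker L hL L0 (hgood L0 hL0).1 g hg hbij hmap
  have h2 : pre (π := π) ((eq.symm (eq ⟨L0, hL0⟩) : 𝓕) : Submodule k (F ⧸ cF)) =
      pre (π := π) L0 := by
    rw [Equiv.symm_apply_apply]
  exact ⟨e.trans (LinearEquiv.ofEq _ _ h2.symm)⟩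

end Pool.Agent.T2H38.RM
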