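import Mathlib
import Pool.Agent.T2H38.RM.Defs
import Pool.Agent.T2H38.RM.Defs2
import Pool.Agent.T2H38.RM.SUBL
import Pool.Agent.T2H38.RM.FGOOD
import Pool.Agent.T2H38.RM.COND
import Pool.Agent.T2H38.RM.RANK

set_option autoImplicit false
universe u v

open IsLocalRing

namespace Pool.Agent.T2H38.RM

theorem rigid_of_equiv {R : Type u} [CommRing R] {M L : Type u} [AddCommGroup M] [Module R M]
    [AddCommGroup L] [Module R L] (e : M ≃ₗ[R] L) (h : Rigid R M) : Rigid R L := by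
  intro E _ _ f g hf hg hfg
  obtain ⟨s, hs⟩ := h E (f ∘ₗ e.toLinearMap) (e.symm.toLinearMap ∘ₗ g)
    (by simpa using hf.comp e.injective) (by simpa using e.symm.surjective.comp hg) (by
      ext y
      simp only [LinearMap.mem_range, LinearMap.coe_comp, LinearEquiv.coe_coe, Function.comp_apply,
        LinearMap.mem_ker, LinearEquiv.map_eq_zero_iff]
      have h1 : y ∈ LinearMap.range f ↔ y ∈ LinearMap.ker g := by rw [hfg]
      simp only [LinearMap.mem_range, LinearMap.mem_ker] at h1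
      rw [← h1]
      constructor
      · rintro ⟨z, hz⟩; exact ⟨e z, hz⟩
      · rintro ⟨z, hz⟩; exact ⟨e.symm z, by simpa using hz⟩)
  refine ⟨s ∘ₗ e.symm.toLinearMap, ?_⟩
  ext l
  have h2 := LinearMap.congr_fun hs (e.symm l)
  simp only [LinearMap.coe_comp, LinearEquiv.coe_coe, Function.comp_apply, LinearMap.id_coe,
    id_eq] at h2 ⊢
  exact e.symm.injective h2

section

variable {ι : Type u} {R : Type u} [CommRing R] (S : ι → Type u) [∀ i, CommRing (S i)]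
  [∀ i, Algebra R (S i)] (r : ι → ℕ)

instance tower_pi : IsScalarTower R ((i : ι) → S i) ((i : ι) → (Fin (r i) → S i)) where
  smul_assoc a s f := by
    funext i j
    simp [Pi.smul_apply, smul_assoc]

end

theorem finite_rigid_abs {k : Type v} {R : Type u} [Field k] [CommRing R]
    [IsLocalRing R] [IsNoetherianRing R] [Algebra k R] [Module.Finite k (ResidueField R)]
    {ι : Type u} [Finite ι] (S : ι → Type u) [∀ i, CommRing (S i)] [∀ i, Algebra R (S i)]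
    [∀ i, Module.Finite R (S i)]
    (hS : ∀ i, ∀ n : ℕ, (maximalIdeal R ^ n) • (⊤ : Submodule R (S i)) ≠ ⊥)
    (c : R) (hc : c ∈ maximalIdeal R) (hn : ∃ n : ℕ, maximalIdeal R ^ n ≤ Ideal.span {c})
    (hcS : ∀ s : ((i : ι) → S i), ∃ r : R, ∀ i, algebraMap R (S i) r = c • s i)
    (hreg : ∀ i (s : S i), c • s = 0 → s = 0) (N : ℕ) :
    ∃ (n : ℕ) (G : Fin n → ModuleCat.{u} R), ∀ (M : Type u) [AddCommGroup M] [Module R M],
      Module.Finite R M →
      (∃ (r : ι → ℕ) (L : Submodule R ((i : ι) → (Fin (r i) → S i))),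
        Submodule.span ((i : ι) → S i) (L : Set ((i : ι) → (Fin (r i) → S i))) = ⊤ ∧
        Nonempty (M ≃ₗ[R] L)) →
      (∃ e : ℝ, e ≤ (N : ℝ) ∧ Filter.Tendsto (fun n : ℕ =>
        ((1 : ℕ).factorial : ℝ) * ((Module.length R
          (M ⧸ ((maximalIdeal R ^ n) • (⊤ : Submodule R M)))).toNat : ℝ) / ((n : ℝ) ^ 1))
        Filter.atTop (nhds e)) →
      Rigid R M → ∃ i, Nonempty (M ≃ₗ[R] G i) := by
  classical
  haveI := Fintype.ofFinite ι
  have key := fun r : ι → Fin (N + 1) =>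
    finite_rigid_sublattices_of (k := k) (R := R) (F := ((i : ι) → (Fin (r i) → S i)))
      (fun Γ Λ h1 h2 => finite_good Γ Λ h1 h2) c hc hn
  choose n G hG using key
  let J : Type u := Σ r : ι → Fin (N + 1), ULift.{u} (Fin (n r))
  haveI : Fintype J := inferInstance
  let eJ := (Fintype.equivFin J).symm
  refine ⟨Fintype.card J, fun j => ModuleCat.of R (G (eJ j).1 (eJ j).2.down), ?_⟩
  intro M _ _ hMfin ⟨r, L, hspan, ⟨e⟩⟩ ⟨q, hqN, hlim⟩ hrig
  -- the conductor property for the product ring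
  have hcS' : ∀ s : ((i : ι) → S i), ∃ r : R, algebraMap R ((i : ι) → S i) r = c • s := by
    intro s
    obtain ⟨a, ha⟩ := hcS s
    exact ⟨a, by funext i; simpa using ha i⟩
  have hcL : ∀ f, c • f ∈ L := fun f => conductor_mem c hcS' L hspan f
  have hle : ∀ i, r i ≤ N := by
    intro i
    let pr : ((i : ι) → (Fin (r i) → S i)) →ₗ[R] (Fin (r i) → S i) := LinearMap.proj i
    let Li : Submodule R (Fin (r i) → S i) := L.map pr
    let g : M →ₗ[R] Li := (pr.restrict (p := L) (q := Li)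
      (fun x hx => Submodule.mem_map_of_mem hx)) ∘ₗ e.toLinearMap
    refine rank_le (hS i) c hn (r i) Li ?_ g ?_ N q hqN hlim
    · intro f
      refine ⟨c • (Pi.single i f), hcL _, ?_⟩
      simp [pr]
    · rintro ⟨y, hy⟩
      obtain ⟨x, hx, rfl⟩ := hy
      exact ⟨e.symm ⟨x, hx⟩, by ext; simp [g]⟩
  obtain ⟨r', rfl⟩ : ∃ r' : ι → Fin (N + 1), (fun i => (r' i : ℕ)) = r :=
    ⟨fun i => ⟨r i, Nat.lt_succ_of_le (hle i)⟩, rfl⟩
  have hregF : ∀ f : ((i : ι) → (Fin (r' i) → S i)), c • f = 0 → f = 0 := by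
    intro f hf
    funext i j
    exact hreg i _ (by simpa using congrFun (congrFun hf i) j)
  obtain ⟨i, ⟨hi⟩⟩ := hG r' L hcL (fun h => extend_hom c hcS' hregF L hspan h)
    (rigid_of_equiv e hrig)
  refine ⟨eJ.symm ⟨r', ⟨i⟩⟩, ?_⟩
  have : G (eJ (eJ.symm ⟨r', ⟨i⟩⟩)).1 (eJ (eJ.symm ⟨r', ⟨i⟩⟩)).2.down = G (eJ (eJ.symm ⟨r', ⟨i⟩⟩)).1 (eJ (eJ.symm ⟨r', ⟨i⟩⟩)).2.down := rfl
  have h2 : eJ (eJ.symm ⟨r', ⟨i⟩⟩) = ⟨r', ⟨i⟩⟩ := eJ.apply_symm_apply _
  show Nonempty (M ≃ₗ[R] (G (eJ (eJ.symm ⟨r', ⟨i⟩⟩)).1 (eJ (eJ.symm ⟨r', ⟨i⟩⟩)).2.down))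
  rw [h2]
  exact ⟨e.trans hi⟩

end Pool.Agent.T2H38.RM
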