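import Pool.Agent.T2H38.RM.PSB

set_option autoImplicit false
universe u v

open IsLocalRing

namespace Pool.Agent.T2H38.RM

/-- common denominators for one branch -/
theorem con2_denominator {A K : Type u} [CommRing A] [IsDomain A] [Field K] [Algebra A K]
    [IsFractionRing A K] (S : Subalgebra A K) [Module.Finite A S] :
    ∃ c : A, c ≠ 0 ∧ ∀ s : S, ∃ r : A, algebraMap A S r = c • s := by
  classical
  obtain ⟨G, hG⟩ := (Module.Finite.fg_top (R := A) (M := S))
  obtain ⟨b, hb⟩ := IsLocalization.exist_integer_multiples_of_finset (nonZeroDivisors A)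
    (G.image (fun s : S => (s : K)))
  refine ⟨b, nonZeroDivisors.coe_ne_zero b, fun s => ?_⟩
  have hs : s ∈ Submodule.span A (G : Set S) := by rw [hG]; trivial
  induction hs using Submodule.span_induction with
  | mem x hx =>
    obtain ⟨r, hr⟩ := hb (x : K) (Finset.mem_image_of_mem _ hx)
    exact ⟨r, Subtype.ext hr⟩
  | zero => exact ⟨0, by simp⟩
  | add x y _ _ hx hy =>
    obtain ⟨r, hr⟩ := hx
    obtain ⟨r', hr'⟩ := hy
    exact ⟨r + r', by rw [map_add, hr, hr', smul_add]⟩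
  | smul a x _ hx =>
    obtain ⟨r, hr⟩ := hx
    exact ⟨a * r, by rw [map_mul, hr, smul_comm, Algebra.smul_def a]⟩

/-- prime avoidance for finitely many ideals not contained in a prime -/
theorem con2_avoid_aux {R : Type u} [CommRing R] {ι : Type u} (s : Finset ι)
    (I : ι → Ideal R) (M P : Ideal R) (hP : P.IsPrime) (hM : ¬ M ≤ P)
    (h : ∀ i ∈ s, ¬ I i ≤ P) :
    ∃ a : R, a ∈ M ∧ a ∉ P ∧ ∀ i ∈ s, a ∈ I i := by
  have h0 : ¬ (M * s.inf I) ≤ P := by
    intro h1
    rcases (Ideal.IsPrime.mul_le hP).1 h1 with h2 | h2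
    · exact hM h2
    · rw [Ideal.IsPrime.inf_le' hP] at h2
      obtain ⟨q, hq, hqp⟩ := h2
      exact h q hq hqp
  obtain ⟨a, ha, hap⟩ := SetLike.not_le_iff_exists.1 h0
  have h2 : M * s.inf I ≤ M := Ideal.mul_le_left
  have h3 : M * s.inf I ≤ s.inf I := Ideal.mul_le_right
  refine ⟨a, h2 ha, hap, fun i hi => ?_⟩
  have h4 : s.inf I ≤ I i := Finset.inf_le hi
  exact h4 (h3 ha)

/-- an element of the maximal ideal in all the other minimal primes -/
theorem con2_avoid {R : Type u} [CommRing R] [IsLocalRing R] [IsNoetherianRing R]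
    (hdim : ringKrullDim R = 1) (p : Mp R) :
    ∃ a : R, a ∈ maximalIdeal R ∧ a ∉ p.1 ∧ ∀ q : Mp R, q ≠ p → a ∈ q.1 := by
  classical
  have hfin : Finite (Mp R) := (minimalPrimes.finite_of_isNoetherianRing R).to_subtype
  have := Fintype.ofFinite (Mp R)
  obtain ⟨a, h1, h2, h3⟩ := con2_avoid_aux (Finset.univ.erase p) (fun q : Mp R => q.1)
    (maximalIdeal R) p.1 (inferInstance) (maxIdeal_not_le_min hdim p) (fun q hq hqp => by
      have hne : q ≠ p := Finset.ne_of_mem_erase hq
      have hq' : q.1 ∈ minimalPrimes R := q.2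
      have hp' : p.1 ∈ minimalPrimes R := p.2
      have h5 : p.1 ≤ q.1 := hp'.2 ⟨hq'.1.1, bot_le⟩ hqp
      exact hne (Subtype.ext (le_antisymm hqp h5)))
  exact ⟨a, h1, h2, fun q hq => h3 q (Finset.mem_erase.2 ⟨hq, Finset.mem_univ q⟩)⟩

theorem exists_conductor_reduced {R : Type u} [CommRing R] [IsLocalRing R] [IsNoetherianRing R]
    [IsReduced R] (hdim : ringKrullDim R = 1)
    (hfin : ∀ p : Mp R, Module.Finite (R ⧸ p.1) (Sp R p)) :
    ∃ c : R, c ∈ maximalIdeal R ∧ (∃ n : ℕ, maximalIdeal R ^ n ≤ Ideal.span {c}) ∧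
      (∀ s : ((p : Mp R) → Sp R p), ∃ r : R, ∀ p, algebraMap R (Sp R p) r = c • s p) ∧
      (∀ (p : Mp R) (s : Sp R p), c • s = 0 → s = 0) := by
  classical
  have hfinM : Finite (Mp R) := (minimalPrimes.finite_of_isNoetherianRing R).to_subtype
  have := Fintype.ofFinite (Mp R)
  choose a ham hap haq using con2_avoid (R := R) hdim
  have hden : ∀ p : Mp R, ∃ c : R, c ∉ p.1 ∧ ∀ s : Sp R p, ∃ r : R,
      algebraMap R (Sp R p) r = c • s := by
    intro p
    have := hfin p
    obtain ⟨c, hc0, hc⟩ := con2_denominator (integralClosure (R ⧸ p.1) (FractionRing (R ⧸ p.1)))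
    obtain ⟨c', rfl⟩ := Ideal.Quotient.mk_surjective c
    refine ⟨c', fun h => hc0 (Ideal.Quotient.eq_zero_iff_mem.2 h), fun s => ?_⟩
    obtain ⟨r, hr⟩ := hc s
    obtain ⟨r', rfl⟩ := Ideal.Quotient.mk_surjective r
    refine ⟨r', ?_⟩
    have e1 : algebraMap R (Sp R p) r' = algebraMap (R ⧸ p.1) (Sp R p) (Ideal.Quotient.mk p.1 r') :=
      IsScalarTower.algebraMap_apply R (R ⧸ p.1) (Sp R p) r'
    rw [e1]
    refine Eq.trans hr ?_
    exact algebraMap_smul (R ⧸ p.1) c' s
  choose e hep he using hden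
  obtain ⟨c, hc⟩ : ∃ c : R, c = ∑ p, a p * e p := ⟨_, rfl⟩
  -- modulo `q`
  have hmod : ∀ (q : Mp R) (t : Mp R → R), ∑ p, a p * t p - a q * t q ∈ q.1 := by
    intro q t
    rw [← Finset.add_sum_erase _ _ (Finset.mem_univ q), add_sub_cancel_left]
    exact Ideal.sum_mem _ fun p hp =>
      Ideal.mul_mem_right _ _ (haq p q (Finset.ne_of_mem_erase hp).symm)
  have hcq : ∀ q : Mp R, c ∉ q.1 := by
    intro q hq
    have h1 := hmod q e
    rw [← hc] at h1
    have h2 : a q * e q ∈ q.1 := by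
      have := Ideal.sub_mem _ hq h1
      rwa [sub_sub_cancel] at this
    rcases Ideal.IsPrime.mem_or_mem inferInstance h2 with h | h
    · exact hap q h
    · exact hep q h
  have hcm : c ∈ maximalIdeal R := by
    rw [hc]
    exact Ideal.sum_mem _ fun p _ => Ideal.mul_mem_right _ _ (ham p)
  -- scalars
  have hker : ∀ (q : Mp R) (x : R), x ∈ q.1 → algebraMap R (Sp R q) x = 0 := by
    intro q x hx
    have e1 : algebraMap R (Sp R q) x = algebraMap (R ⧸ q.1) (Sp R q) (Ideal.Quotient.mk q.1 x) :=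
      IsScalarTower.algebraMap_apply R (R ⧸ q.1) (Sp R q) x
    rw [e1, Ideal.Quotient.eq_zero_iff_mem.2 hx, map_zero]
  have hmod2 : ∀ (q : Mp R) (t : Mp R → R), algebraMap R (Sp R q) (∑ p, a p * t p) =
      algebraMap R (Sp R q) (a q * t q) := by
    intro q t
    have h1 := hker q _ (hmod q t)
    rw [map_sub, sub_eq_zero] at h1
    exact h1
  refine ⟨c, hcm, ?_, fun s => ?_, fun p s hs => ?_⟩
  · -- a power of the maximal ideal
    refine Ideal.exists_pow_le_of_le_radical_of_fg ?_ (IsNoetherian.noetherian _)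
    rw [Ideal.radical_eq_sInf]
    refine le_sInf fun P hP => ?_
    obtain ⟨hP1, hP2⟩ := hP
    have hk : Ring.KrullDimLE 1 R := by
      rw [Ring.krullDimLE_iff, hdim]
      norm_num
    rcases Ring.krullDimLE_one_iff.1 hk P hP2 with h | h
    · exact absurd (hP1 (Ideal.mem_span_singleton_self c)) (hcq ⟨P, h⟩)
    · exact (eq_maximalIdeal h).ge
  · choose r hr using fun p => he p (s p)
    refine ⟨∑ p, a p * r p, fun q => ?_⟩
    rw [hmod2, map_mul, hr q]
    have h2 : c • s q = (a q * e q) • s q := by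
      rw [Algebra.smul_def c, Algebra.smul_def (a q * e q), hc, hmod2]
    rw [h2, mul_smul, Algebra.smul_def (a q)]
  · rw [Algebra.smul_def] at hs
    rcases mul_eq_zero.1 hs with h | h
    · exact absurd (algebraMap_Sp_eq_zero p c h) (hcq p)
    · exact h

end Pool.Agent.T2H38.RM
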