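import Mathlib
import Pool.Agent.T2H38.RM.Defs

set_option autoImplicit false
universe u v

open IsLocalRing TensorProduct

namespace Pool.Agent.T2H38.RM

theorem exists_embedding {R K : Type u} [CommRing R] [IsDomain R] [Field K] [Algebra R K]
    [IsFractionRing R K] (S : Subalgebra R K) [IsPrincipalIdealRing S]
    {M : Type u} [AddCommGroup M] [Module R M] [Module.Finite R M]
    (htf : ∀ (a : R) (m : M), a • m = 0 → a = 0 ∨ m = 0) :
    ∃ (r : ℕ) (L : Submodule R (Fin r → S)),
      Submodule.span S (L : Set (Fin r → S)) = ⊤ ∧ Nonempty (M ≃ₗ[R] L) := by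
  classical
  let ι : M →ₗ[R] (K ⊗[R] M) := TensorProduct.mk R K M 1
  haveI hloc : IsLocalizedModule (nonZeroDivisors R) ι :=
    (isLocalizedModule_iff_isBaseChange (nonZeroDivisors R) K ι).mpr (TensorProduct.isBaseChange R M K)
  have hinj : Function.Injective ι := by
    rw [← LinearMap.ker_eq_bot, LinearMap.ker_eq_bot']
    intro m hm
    obtain ⟨c, hc⟩ := (IsLocalizedModule.eq_zero_iff (nonZeroDivisors R) ι).mp hm
    rcases htf (c : R) m hc with h | h
    · exact absurd h (nonZeroDivisors.coe_ne_zero c)
    · exact h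
  let F : Submodule S (K ⊗[R] M) := Submodule.span S (Set.range ι)
  haveI hfin : Module.Finite S F := by
    obtain ⟨s, hs⟩ := (Module.Finite.fg_top : (⊤ : Submodule R M).FG)
    refine Module.Finite.iff_fg.mpr ⟨s.image ι, ?_⟩
    apply le_antisymm
    · refine Submodule.span_mono ?_
      intro x hx
      simp only [Finset.coe_image] at hx
      obtain ⟨y, _, rfl⟩ := hx
      exact ⟨y, rfl⟩
    · rw [Submodule.span_le]
      rintro _ ⟨m, rfl⟩
      have hm : m ∈ Submodule.span R (s : Set M) := by rw [hs]; trivial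
      refine Submodule.span_induction (p := fun m _ => ι m ∈ Submodule.span S
        ((s.image ι : Finset (K ⊗[R] M)) : Set (K ⊗[R] M))) ?_ ?_ ?_ ?_ hm
      · intro x hx
        exact Submodule.subset_span (by simpa using ⟨x, hx, rfl⟩)
      · rw [map_zero]; exact Submodule.zero_mem _
      · intro x y _ _ hx hy
        rw [map_add]; exact Submodule.add_mem _ hx hy
      · intro a x _ hx
        rw [map_smul]
        have : a • ι x = (algebraMap R S a) • ι x := by
          rw [algebraMap_smul]
        rw [this]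
        exact Submodule.smul_mem _ _ hx
  haveI htfF : Module.IsTorsionFree S F := by
    refine @Module.IsTorsionFree.of_smul_eq_zero S F _ _ _ _ ?_
    rintro s ⟨v, hv⟩ h
    have h1 : (s : K) • v = 0 := congrArg Subtype.val h
    rcases smul_eq_zero.mp h1 with h2 | h2
    · left; exact Subtype.ext h2
    · right; exact Subtype.ext h2
  haveI : Module.Free S F := @Module.free_of_finite_type_torsion_free' S _ F _ _ _ _ hfin htfF
  let b := Module.finBasis S F
  let E : F ≃ₗ[S] (Fin (Module.finrank S F) → S) := b.equivFun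
  let j : M →ₗ[R] F :=
    { toFun := fun m => ⟨ι m, Submodule.subset_span ⟨m, rfl⟩⟩
      map_add' := fun x y => by apply Subtype.ext; exact map_add ι x y
      map_smul' := fun a x => by apply Subtype.ext; exact map_smul ι a x }
  have hj : Function.Injective j := fun x y h => hinj (congrArg Subtype.val h)
  let ψ : M →ₗ[R] (Fin (Module.finrank S F) → S) := (E.toLinearMap.restrictScalars R).comp j
  have hψ : Function.Injective ψ := E.injective.comp hj
  refine ⟨Module.finrank S F, LinearMap.range ψ, ?_, ⟨LinearEquiv.ofInjective ψ hψ⟩⟩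
  rw [eq_top_iff]
  intro f _
  have hf : f = E (E.symm f) := by simp
  rw [hf]
  generalize E.symm f = v
  obtain ⟨v, hv⟩ := v
  refine Submodule.span_induction (p := fun v hv => E ⟨v, hv⟩ ∈ Submodule.span S
    ((LinearMap.range ψ : Submodule R _) : Set (Fin (Module.finrank S F) → S))) ?_ ?_ ?_ ?_ hv
  · rintro x ⟨m, rfl⟩
    exact Submodule.subset_span ⟨m, rfl⟩
  · have : (⟨0, Submodule.zero_mem _⟩ : F) = 0 := rfl
    rw [this, map_zero]; exact Submodule.zero_mem _
  · intro x y hx hy h1 h2
    have : (⟨x + y, Submodule.add_mem _ hx hy⟩ : F) = ⟨x, hx⟩ + ⟨y, hy⟩ := rfl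
    rw [this, map_add]; exact Submodule.add_mem _ h1 h2
  · intro a x hx h1
    have : (⟨a • x, Submodule.smul_mem _ a hx⟩ : F) = a • ⟨x, hx⟩ := rfl
    rw [this, map_smul]; exact Submodule.smul_mem _ _ h1

end Pool.Agent.T2H38.RM
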