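import Mathlib
import Pool.Agent.T2H38.RM.Defs2
import Pool.Agent.T2H38.RM.EMB

set_option autoImplicit false
universe u v

open IsLocalRing

namespace Pool.Agent.T2H38.RM

namespace EMB2

/-- elements of minimal primes of reduced rings are zero divisors, in the strong form -/
lemma kill {R : Type u} [CommRing R] [IsReduced R] (p : Mp R) (y : R) (hy : y ∈ p.1) :
    ∃ a : R, a ∉ p.1 ∧ a * y = 0 := by
  classical
  haveI hp : p.1.IsPrime := p.2.1.1
  by_contra hcon
  push Not at hcon
  let S : Submonoid R := p.1.primeCompl ⊔ Submonoid.powers y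
  have hdis : Disjoint (((⊥ : Ideal R) : Set R)) (S : Set R) := by
    rw [Set.disjoint_left]
    intro z hz hzS
    have hz0 : z = 0 := hz
    obtain ⟨a, ha, b, ⟨n, hn⟩, hab⟩ := Submonoid.mem_sup.mp hzS
    have hn' : b = y ^ n := hn.symm
    have h0 : a * y ^ n = 0 := by rw [← hn', hab, hz0]
    have h1 : (a * y) ^ (n + 1) = 0 := by
      have : (a * y) ^ (n + 1) = (a * y ^ n) * (a ^ n * y) := by ring
      rw [this, h0, zero_mul]
    have h2 : a * y = 0 := pow_eq_zero_iff (Nat.succ_ne_zero n) |>.mp h1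
    exact hcon a ha h2
  obtain ⟨q, hq, _, hqd⟩ := Ideal.exists_le_prime_disjoint ⊥ S hdis
  have hqp : q ≤ p.1 := by
    intro z hz
    by_contra hzp
    exact Set.disjoint_left.mp hqd hz (Submonoid.mem_sup_left hzp)
  have hpq : p.1 ≤ q := p.2.2 ⟨hq, bot_le⟩ hqp
  exact Set.disjoint_left.mp hqd (hpq hy) (Submonoid.mem_sup_right (Submonoid.mem_powers y))

/-- torsion submodule along a prime -/
def T {R : Type u} [CommRing R] (p : Ideal R) [hp : p.IsPrime] (M : Type u) [AddCommGroup M]
    [Module R M] : Submodule R M where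
  carrier := {m | ∃ a : R, a ∉ p ∧ a • m = 0}
  zero_mem' := ⟨1, hp.one_notMem, smul_zero _⟩
  add_mem' := by
    rintro x y ⟨a, ha, hax⟩ ⟨b, hb, hby⟩
    refine ⟨a * b, fun h => (hp.mem_or_mem h).elim ha hb, ?_⟩
    rw [smul_add, mul_smul, mul_smul, hby, smul_zero, add_zero, smul_comm, hax, smul_zero]
  smul_mem' := by
    rintro c x ⟨a, ha, hax⟩
    exact ⟨a, ha, by rw [smul_comm, hax, smul_zero]⟩

end EMB2

open EMB2 in
/-- one branch -/
theorem EMB2.branch {R : Type u} [CommRing R] [IsReduced R] (p : Mp R)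
    (hPID : IsPrincipalIdealRing (Sp R p))
    {M : Type u} [AddCommGroup M] [Module R M] [Module.Finite R M] :
    ∃ (r : ℕ) (φ : M →ₗ[R] (Fin r → Sp R p)),
      (∀ m, φ m = 0 → m ∈ EMB2.T p.1 M) ∧
      Submodule.span (Sp R p) (Set.range φ) = ⊤ := by
  classical
  let N := M ⧸ (EMB2.T p.1 M)
  have htors : Module.IsTorsionBySet R N (p.1 : Set R) := by
    rintro x ⟨y, hy⟩
    obtain ⟨m, rfl⟩ := Submodule.Quotient.mk_surjective _ x
    obtain ⟨a, ha, hay⟩ := EMB2.kill p y hy
    change (y : R) • (Submodule.Quotient.mk m : N) = 0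
    rw [← Submodule.Quotient.mk_smul, Submodule.Quotient.mk_eq_zero]
    exact ⟨a, ha, by rw [smul_smul, hay, zero_smul]⟩
  letI : Module (R ⧸ p.1) N := htors.module
  haveI : IsScalarTower R (R ⧸ p.1) N := Module.IsTorsionBySet.isScalarTower htors
  haveI : Module.Finite (R ⧸ p.1) N := Module.Finite.of_restrictScalars_finite R (R ⧸ p.1) N
  have hmk : ∀ (a : R) (x : N), (Ideal.Quotient.mk p.1 a) • x = a • x := fun a x => rfl
  haveI : IsDomain (R ⧸ p.1) := inferInstance
  obtain ⟨r, L, hspan, ⟨e⟩⟩ := exists_embedding (R := R ⧸ p.1) (K := FractionRing (R ⧸ p.1))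
    (integralClosure (R ⧸ p.1) (FractionRing (R ⧸ p.1))) (M := N) (by
      intro a x h
      obtain ⟨a, rfl⟩ := Ideal.Quotient.mk_surjective a
      obtain ⟨m, rfl⟩ := Submodule.Quotient.mk_surjective _ x
      rw [hmk, ← Submodule.Quotient.mk_smul, Submodule.Quotient.mk_eq_zero] at h
      obtain ⟨b, hb, hbm⟩ := h
      by_cases ha : a ∈ p.1
      · left; exact Ideal.Quotient.eq_zero_iff_mem.mpr ha
      · right
        rw [Submodule.Quotient.mk_eq_zero]
        refine ⟨b * a, fun h => ((instPrimeMp p).mem_or_mem h).elim hb ha, ?_⟩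
        rw [mul_smul]; exact hbm)
  let φ : M →ₗ[R] (Fin r → Sp R p) :=
    (L.subtype.restrictScalars R).comp ((e.toLinearMap.restrictScalars R).comp
      (EMB2.T p.1 M).mkQ)
  refine ⟨r, φ, ?_, ?_⟩
  · intro m hm
    have h1 : (e (Submodule.Quotient.mk m : N) : Fin r → Sp R p) = 0 := hm
    have h2 : e (Submodule.Quotient.mk m : N) = 0 := Subtype.ext h1
    have h3 : (Submodule.Quotient.mk m : N) = 0 := by
      apply e.injective
      rw [h2, map_zero]
    exact (Submodule.Quotient.mk_eq_zero _).mp h3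
  · have : Set.range φ = (L : Set (Fin r → Sp R p)) := by
      ext f
      constructor
      · rintro ⟨m, rfl⟩
        exact (e (Submodule.Quotient.mk m : N)).2
      · intro hf
        obtain ⟨x, hx⟩ := e.surjective ⟨f, hf⟩
        obtain ⟨m, rfl⟩ := Submodule.Quotient.mk_surjective _ x
        exact ⟨m, congrArg Subtype.val hx⟩
    rw [this]
    exact hspan

/-- the intersection of the branch torsions is zero -/
lemma EMB2.inter {R : Type u} [CommRing R] [IsLocalRing R] [IsNoetherianRing R]
    (hdim : ringKrullDim R = 1)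
    {M : Type u} [AddCommGroup M] [Module R M]
    (x : R) (hx : x ∈ maximalIdeal R) (hreg : IsSMulRegular M x) (m : M)
    (hm : ∀ p : Mp R, m ∈ EMB2.T p.1 M) : m = 0 := by
  by_contra hne
  let W : Submodule R M := Submodule.span R {m}
  let w : W := ⟨m, Submodule.mem_span_singleton_self m⟩
  have hw : w ≠ 0 := fun h => hne (congrArg Subtype.val h)
  obtain ⟨P, hP, hle⟩ := exists_le_isAssociatedPrime_of_isNoetherianRing R w hw
  haveI hPp : P.IsPrime := hP.1
  obtain ⟨_, z, hz⟩ := isAssociatedPrime_iff.mp hP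
  have hzP : ∀ a : R, a ∈ P ↔ a • z = 0 := by
    intro a
    rw [hz, Submodule.mem_colon_singleton]
    rfl
  have hz0 : z ≠ 0 := by
    intro h
    apply hPp.ne_top
    rw [Ideal.eq_top_iff_one, hzP, h, smul_zero]
  obtain ⟨c, hc⟩ := Submodule.mem_span_singleton.mp z.2
  have hkd : Ring.KrullDimLE 1 R := by
    rw [Ring.krullDimLE_iff, hdim]
    rfl
  rcases Ring.krullDimLE_one_iff.mp hkd P hPp with hmin | hmax
  · obtain ⟨a, ha, ham⟩ := hm ⟨P, hmin⟩
    apply ha
    change a ∈ P
    rw [hzP]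
    apply Subtype.ext
    change a • (z : M) = 0
    rw [← hc, smul_comm, ham, smul_zero]
  · have hPm : P = maximalIdeal R := IsLocalRing.eq_maximalIdeal hmax
    have h1 : x ∈ P := by rw [hPm]; exact hx
    have h2 := (hzP x).mp h1
    have h3 : x • (z : M) = 0 := congrArg Subtype.val h2
    apply hz0
    apply Subtype.ext
    apply hreg
    change x • (z : M) = x • (0 : M)
    rw [h3, smul_zero]

theorem exists_embedding_reduced {R : Type u} [CommRing R] [IsLocalRing R] [IsNoetherianRing R]
    [IsReduced R] (hdim : ringKrullDim R = 1)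
    (hPID : ∀ p : Mp R, IsPrincipalIdealRing (Sp R p))
    {M : Type u} [AddCommGroup M] [Module R M] [Module.Finite R M]
    (x : R) (hx : x ∈ maximalIdeal R) (hreg : IsSMulRegular M x) :
    ∃ (r : Mp R → ℕ) (L : Submodule R ((p : Mp R) → (Fin (r p) → Sp R p))),
      Submodule.span ((p : Mp R) → Sp R p) (L : Set ((p : Mp R) → (Fin (r p) → Sp R p))) = ⊤ ∧
      Nonempty (M ≃ₗ[R] L) := by
  classical
  have hbr := fun p : Mp R => EMB2.branch p (hPID p) (M := M)
  choose r φ hφ hspan using hbr
  let Φ : M →ₗ[R] ((p : Mp R) → (Fin (r p) → Sp R p)) := LinearMap.pi φ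
  have hΦ : Function.Injective Φ := by
    rw [← LinearMap.ker_eq_bot, LinearMap.ker_eq_bot']
    intro m hm
    exact EMB2.inter hdim x hx hreg m fun p => hφ p m (congrFun hm p)
  refine ⟨r, LinearMap.range Φ, ?_, ⟨LinearEquiv.ofInjective Φ hΦ⟩⟩
  haveI : Finite (Mp R) := (minimalPrimes.finite_of_isNoetherianRing R).to_subtype
  cases nonempty_fintype (Mp R)
  rw [eq_top_iff]
  intro f _
  have hf : f = ∑ p, Pi.single p (f p) := (Finset.univ_sum_single f).symm
  rw [hf]
  refine Submodule.sum_mem _ fun p _ => ?_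
  have hfp : f p ∈ Submodule.span (Sp R p) (Set.range (φ p)) := by rw [hspan p]; trivial
  generalize f p = v at hfp
  refine Submodule.span_induction (p := fun v _ => (Pi.single p v : (p : Mp R) → (Fin (r p) → Sp R p)) ∈
    Submodule.span ((p : Mp R) → Sp R p)
      ((LinearMap.range Φ : Submodule R _) : Set ((p : Mp R) → (Fin (r p) → Sp R p)))) ?_ ?_ ?_ ?_ hfp
  · rintro _ ⟨m, rfl⟩
    have : (Pi.single p (φ p m) : (p : Mp R) → (Fin (r p) → Sp R p)) =
        (Pi.single p (1 : Sp R p) : (p : Mp R) → Sp R p) • Φ m := by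
      funext q
      by_cases hq : q = p
      · subst hq
        rw [Pi.single_eq_same, Pi.smul_apply', Pi.single_eq_same, one_smul]
        rfl
      · rw [Pi.single_eq_of_ne hq, Pi.smul_apply', Pi.single_eq_of_ne hq, zero_smul]
    rw [this]
    exact Submodule.smul_mem _ _ (Submodule.subset_span ⟨m, rfl⟩)
  · rw [Pi.single_zero]; exact Submodule.zero_mem _
  · intro a b _ _ ha hb
    rw [Pi.single_add]; exact Submodule.add_mem _ ha hb
  · intro s a _ ha
    have : (Pi.single p (s • a) : (p : Mp R) → (Fin (r p) → Sp R p)) =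
        (Pi.single p s : (p : Mp R) → Sp R p) •
          (Pi.single p a : (p : Mp R) → (Fin (r p) → Sp R p)) := by
      funext q
      by_cases hq : q = p
      · subst hq
        rw [Pi.single_eq_same, Pi.smul_apply', Pi.single_eq_same, Pi.single_eq_same]
      · rw [Pi.single_eq_of_ne hq, Pi.smul_apply', Pi.single_eq_of_ne hq, Pi.single_eq_of_ne hq,
          zero_smul]
    rw [this]
    exact Submodule.smul_mem _ _ ha

end Pool.Agent.T2H38.RM
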