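import Pool.Agent.T2H38.RM.Defs

/-!
# Package FD: finite modules killed by a power of the maximal ideal are finite-dimensional
-/

set_option autoImplicit false

open IsLocalRing

namespace Pool.Agent.T2H38.RM

theorem PkgFD.of_max {k R M : Type*} [Field k] [CommRing R] [IsLocalRing R]
    [Algebra k R] [hk : Module.Finite k (ResidueField R)]
    [AddCommGroup M] [Module R M] [Module k M] [IsScalarTower k R M] [Module.Finite R M]
    (h : ∀ a ∈ maximalIdeal R, ∀ m : M, a • m = 0) : Module.Finite k M := by
  have ht : Module.IsTorsionBySet R M (maximalIdeal R : Set R) := by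
    intro x a
    exact h a.1 a.2 x
  letI : Module (R ⧸ maximalIdeal R) M := ht.module
  haveI h1 : IsScalarTower k (R ⧸ maximalIdeal R) M := ht.isScalarTower
  haveI h2 : IsScalarTower R (R ⧸ maximalIdeal R) M := ht.isScalarTower
  haveI h3 : Module.Finite (R ⧸ maximalIdeal R) M :=
    Module.Finite.of_restrictScalars_finite R (R ⧸ maximalIdeal R) M
  haveI h4 : Module.Finite k (R ⧸ maximalIdeal R) := hk
  exact Module.Finite.trans (R ⧸ maximalIdeal R) M

theorem PkgFD.main {k R : Type*} [Field k] [CommRing R] [IsLocalRing R]
    [IsNoetherianRing R] [Algebra k R] [Module.Finite k (ResidueField R)] (n : ℕ) :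
    ∀ {M : Type*} [AddCommGroup M] [Module R M] [Module k M] [IsScalarTower k R M]
      [Module.Finite R M],
      (∀ a ∈ maximalIdeal R ^ n, ∀ m : M, a • m = 0) → Module.Finite k M := by
  induction n with
  | zero =>
    intro M _ _ _ _ _ h
    have : Subsingleton M := by
      refine ⟨fun a b => ?_⟩
      have h1 := h 1 (by simp) a
      have h2 := h 1 (by simp) b
      rw [one_smul] at h1 h2
      rw [h1, h2]
    infer_instance
  | succ n ih =>
    intro M _ _ _ _ _ h
    let N : Submodule R M := (maximalIdeal R ^ n) • (⊤ : Submodule R M)
    haveI : Module.Finite R N := inferInstance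
    have hN : Module.Finite k N := by
      apply PkgFD.of_max (R := R)
      intro a ha m
      obtain ⟨m, hm⟩ := m
      apply Subtype.ext
      change a • m = 0
      refine Submodule.smul_induction_on hm ?_ ?_
      · intro r hr x _
        rw [smul_smul]
        apply h
        rw [pow_succ']
        exact Ideal.mul_mem_mul ha hr
      · intro x y hx hy
        rw [smul_add, hx, hy, add_zero]
    have hQ : Module.Finite k (M ⧸ N) := by
      apply ih
      intro a ha m
      obtain ⟨x, rfl⟩ := N.mkQ_surjective m
      rw [← map_smul]
      apply (Submodule.Quotient.mk_eq_zero N).2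
      exact Submodule.smul_mem_smul ha trivial
    let N' : Submodule k M := N.restrictScalars k
    haveI : Module.Finite k N' := hN
    haveI : Module.Finite k (M ⧸ N') := hQ
    exact Module.Finite.of_submodule_quotient N'

/-- T9 -/
theorem finiteDimensional_of_pow {k R M : Type*} [Field k] [CommRing R] [IsLocalRing R]
    [IsNoetherianRing R] [Algebra k R] [Module.Finite k (ResidueField R)]
    [AddCommGroup M] [Module R M] [Module k M] [IsScalarTower k R M] [Module.Finite R M]
    (n : ℕ) (h : ∀ a ∈ maximalIdeal R ^ n, ∀ m : M, a • m = 0) : FiniteDimensional k M :=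
  PkgFD.main n h

end Pool.Agent.T2H38.RM
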