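import Pool.Agent.T2H38.RM.Defs

/-!
# Package FINC: the integral closure of a complete one-dimensional local domain is finite
-/

set_option autoImplicit false
universe u v

open IsLocalRing

namespace Pool.Agent.T2H38.RM

namespace PkgFINC

section

variable {R : Type*} [CommRing R]

lemma artin [IsDomain R] [IsNoetherianRing R] [Ring.KrullDimLE 1 R] {c : R} (hc : c ≠ 0) :
    IsArtinianRing (R ⧸ Ideal.span {c}) := by
  have h1 := (isFiniteLength_iff_isNoetherian_isArtinian).1
    (isFiniteLength_quotient_span_singleton R (mem_nonZeroDivisors_of_ne_zero hc))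
  exact isArtinian_of_tower R h1.2

lemma len_span [IsDomain R] [IsNoetherianRing R] [Ring.KrullDimLE 1 R] {c : R} (hc : c ≠ 0) :
    Module.length R (R ⧸ Ideal.span {c}) ≠ ⊤ :=
  Module.length_ne_top_iff.2
    (isFiniteLength_quotient_span_singleton R (mem_nonZeroDivisors_of_ne_zero hc))

/-- finite modules killed by a nonzero element have finite length -/
lemma fin_len [IsDomain R] [IsNoetherianRing R] [Ring.KrullDimLE 1 R] {c : R} (hc : c ≠ 0)
    {M : Type*} [AddCommGroup M] [Module R M] [Module.Finite R M] (h : ∀ m : M, c • m = 0) :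
    Module.length R M ≠ ⊤ := by
  obtain ⟨n, f, hf⟩ := Module.Finite.exists_fin' R M
  have hfac : ∀ i : Fin n, Ideal.span {c} ≤
      LinearMap.ker (LinearMap.toSpanSingleton R M (f (Pi.single i 1))) := by
    intro i
    rw [Ideal.span_le, Set.singleton_subset_iff]
    simp [h]
  let g : (Fin n → R ⧸ Ideal.span {c}) →ₗ[R] M :=
    ∑ i, (Submodule.liftQ (Ideal.span {c})
      (LinearMap.toSpanSingleton R M (f (Pi.single i 1))) (hfac i)) ∘ₗ LinearMap.proj i
  have hg : Function.Surjective g := by
    intro m
    obtain ⟨v, rfl⟩ := hf m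
    refine ⟨fun i => Submodule.mkQ _ (v i), ?_⟩
    simp only [g, LinearMap.sum_apply, LinearMap.comp_apply, LinearMap.proj_apply,
      Submodule.mkQ_apply, Submodule.liftQ_apply, LinearMap.toSpanSingleton_apply]
    simp only [← map_smul, ← map_sum]
    congr 1
    ext i
    simp [Finset.sum_apply, Pi.single_apply]
  have h2 := Module.length_le_of_surjective g hg
  have h3 := len_span hc
  intro htop
  rw [htop, top_le_iff, Module.length_pi_of_fintype, Finset.sum_const, Finset.card_univ,
    Fintype.card_fin] at h2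
  rw [nsmul_eq_mul] at h2
  obtain ⟨m, hm⟩ := ENat.ne_top_iff_exists.1 h3
  rw [← hm, ← Nat.cast_mul] at h2
  exact ENat.coe_ne_top _ h2

/-- the length of `T / x T` -/
lemma len_eq {T : Type*} [AddCommGroup T] [Module R T] (x : R) (j : R →ₗ[R] T)
    (hj : Function.Injective j) (hx : ∀ t : T, x • t = 0 → t = 0)
    (hfin : Module.length R (T ⧸ LinearMap.range j) ≠ ⊤) :
    Module.length R (T ⧸ LinearMap.range (LinearMap.lsmul R T x)) =
      Module.length R (R ⧸ Ideal.span {x}) := by
  set N := LinearMap.range j with hN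
  set μ : T →ₗ[R] T := LinearMap.lsmul R T x with hμ
  have hμ1 : ∀ t, μ t = x • t := fun t => rfl
  have hμi : Function.Injective μ := by
    rw [injective_iff_map_eq_zero]
    exact hx
  set A := N.map μ with hA
  have hAN : A ≤ N := by
    rintro _ ⟨t, ht, rfl⟩
    exact N.smul_mem x ht
  have hAr : A ≤ LinearMap.range μ := LinearMap.map_le_range
  let α : (T ⧸ N) →ₗ[R] (T ⧸ A) := Submodule.mapQ N A μ (Submodule.le_comap_map μ N)
  let β : (T ⧸ A) →ₗ[R] (T ⧸ LinearMap.range μ) :=
    Submodule.mapQ A (LinearMap.range μ) LinearMap.id (by simpa using hAr)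
  let δ : (T ⧸ A) →ₗ[R] (T ⧸ N) := Submodule.mapQ A N LinearMap.id (by simpa using hAN)
  have hγ0 : Ideal.span {x} ≤ A.comap j := by
    rw [Ideal.span_le, Set.singleton_subset_iff]
    change j x ∈ A
    refine ⟨j 1, ⟨1, rfl⟩, ?_⟩
    rw [hμ1, ← map_smul, smul_eq_mul, mul_one]
  let γ : (R ⧸ Ideal.span {x}) →ₗ[R] (T ⧸ A) := Submodule.mapQ (Ideal.span {x}) A j hγ0
  have hα : Function.Injective α := by
    rw [injective_iff_map_eq_zero]
    intro y hy
    obtain ⟨t, rfl⟩ := Submodule.mkQ_surjective _ y
    simp only [α, Submodule.mkQ_apply, Submodule.mapQ_apply, Submodule.Quotient.mk_eq_zero] at hy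
    obtain ⟨t', ht', h⟩ := hy
    rw [hμi h] at ht'
    rwa [Submodule.mkQ_apply, Submodule.Quotient.mk_eq_zero]
  have hβ : Function.Surjective β := by
    intro y
    obtain ⟨t, rfl⟩ := Submodule.mkQ_surjective _ y
    exact ⟨Submodule.mkQ _ t, rfl⟩
  have hδ : Function.Surjective δ := by
    intro y
    obtain ⟨t, rfl⟩ := Submodule.mkQ_surjective _ y
    exact ⟨Submodule.mkQ _ t, rfl⟩
  have hγ : Function.Injective γ := by
    rw [injective_iff_map_eq_zero]
    intro y hy
    obtain ⟨t, rfl⟩ := Submodule.mkQ_surjective _ y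
    simp only [γ, Submodule.mkQ_apply, Submodule.mapQ_apply, Submodule.Quotient.mk_eq_zero] at hy
    obtain ⟨t', ⟨r, rfl⟩, h⟩ := hy
    rw [hμ1, ← map_smul] at h
    have h2 := hj h
    rw [Submodule.mkQ_apply, Submodule.Quotient.mk_eq_zero, ← h2, smul_eq_mul]
    exact Ideal.mul_mem_right _ _ (Ideal.mem_span_singleton_self x)
  have he1 : Function.Exact α β := by
    intro y
    obtain ⟨t, rfl⟩ := Submodule.mkQ_surjective _ y
    constructor
    · intro h
      have h' : t ∈ LinearMap.range μ := by
        simpa [β, Submodule.mapQ_apply] using h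
      obtain ⟨t', rfl⟩ := h'
      exact ⟨Submodule.mkQ _ t', rfl⟩
    · rintro ⟨z, hz⟩
      obtain ⟨t', rfl⟩ := Submodule.mkQ_surjective _ z
      rw [← hz]
      simp only [α, β, Submodule.mkQ_apply, Submodule.mapQ_apply, LinearMap.id_apply,
        Submodule.Quotient.mk_eq_zero]
      exact ⟨t', rfl⟩
  have he2 : Function.Exact γ δ := by
    intro y
    obtain ⟨t, rfl⟩ := Submodule.mkQ_surjective _ y
    constructor
    · intro h
      have h' : t ∈ N := by
        simpa [δ, Submodule.mapQ_apply] using h
      obtain ⟨r, rfl⟩ := h'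
      exact ⟨Submodule.mkQ _ r, rfl⟩
    · rintro ⟨z, hz⟩
      obtain ⟨r, rfl⟩ := Submodule.mkQ_surjective _ z
      rw [← hz]
      simp only [γ, δ, Submodule.mkQ_apply, Submodule.mapQ_apply, LinearMap.id_apply,
        Submodule.Quotient.mk_eq_zero]
      exact ⟨r, rfl⟩
  have h1 := Module.length_eq_add_of_exact α β hα hβ he1
  have h2 := Module.length_eq_add_of_exact γ δ hγ hδ he2
  rw [h1, add_comm (Module.length R (R ⧸ Ideal.span {x}))] at h2
  exact ENat.add_right_injective_of_ne_top hfin h2

/-- modules all of whose finitely generated submodules have bounded length are finite -/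
lemma finite_of_bdd {M : Type*} [AddCommGroup M] [Module R M] (e : ℕ∞) (he : e ≠ ⊤)
    (h : ∀ P : Submodule R M, P.FG → Module.length R P ≤ e) : Module.Finite R M := by
  classical
  obtain ⟨e₀, rfl⟩ := ENat.ne_top_iff_exists.1 he
  -- the natural number lengths
  let good : ℕ → Prop := fun n => ∃ P : Submodule R M, P.FG ∧ Module.length R P = n
  have h0 : good 0 := ⟨⊥, Submodule.fg_bot, by simp⟩
  have hb : ∀ n, good n → n ≤ e₀ := by
    rintro n ⟨P, hP, hn⟩
    have := h P hP
    rw [hn] at this
    exact_mod_cast this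
  obtain ⟨P, hP, hn⟩ : good (Nat.findGreatest good e₀) :=
    Nat.findGreatest_spec (Nat.zero_le _) h0
  have hmax : ∀ m, good m → m ≤ Nat.findGreatest good e₀ := fun m hm =>
    Nat.le_findGreatest (hb m hm) hm
  have htop : P = ⊤ := by
    rw [eq_top_iff]
    intro q _
    have hP' : (P ⊔ Submodule.span R {q}).FG := hP.sup (Submodule.fg_span_singleton q)
    have hle : P ≤ P ⊔ Submodule.span R {q} := le_sup_left
    have hne : Module.length R ↥(P ⊔ Submodule.span R {q}) ≠ ⊤ := fun htop => by
      have h1 := h _ hP'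
      rw [htop, top_le_iff] at h1
      exact he h1
    obtain ⟨m, hm⟩ := ENat.ne_top_iff_exists.1 hne
    have hm1 := hmax m ⟨_, hP', hm.symm⟩
    have hfl := isFiniteLength_iff_isNoetherian_isArtinian.1 (Module.length_ne_top_iff.1 hne)
    haveI := hfl.1
    haveI := hfl.2
    by_contra hq
    have hsub : P.submoduleOf (P ⊔ Submodule.span R {q}) ≠ ⊤ := by
      intro hcon
      have h2 : (⟨q, (le_sup_right : Submodule.span R {q} ≤ _)
          (Submodule.mem_span_singleton_self q)⟩ : ↥(P ⊔ Submodule.span R {q})) ∈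
          P.submoduleOf (P ⊔ Submodule.span R {q}) := by
        rw [hcon]
        trivial
      exact hq h2
    have hlt := Submodule.length_lt hsub
    rw [(Submodule.submoduleOfEquivOfLe hle).length_eq, hn, ← hm] at hlt
    have : Nat.findGreatest good e₀ < m := by exact_mod_cast hlt
    omega
  rw [Module.finite_def, ← htop]
  exact hP

lemma prec_pi (I : Ideal R) [IsPrecomplete I R] (n : ℕ) : IsPrecomplete I (Fin n → R) := by
  refine ⟨fun f hf => ?_⟩
  have hco : ∀ (m : ℕ) (v : Fin n → R), v ∈ (I ^ m • ⊤ : Submodule R (Fin n → R)) →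
      ∀ i, v i ∈ (I ^ m • ⊤ : Submodule R R) := by
    intro m v hv i
    have h1 : (I ^ m • ⊤ : Submodule R (Fin n → R)) ≤
        (I ^ m • ⊤ : Submodule R R).comap (LinearMap.proj i) := by
      rw [Submodule.smul_le]
      intro r hr w _
      exact Submodule.smul_mem_smul hr Submodule.mem_top
    exact h1 hv
  have hco2 : ∀ (m : ℕ) (v : Fin n → R), (∀ i, v i ∈ (I ^ m • ⊤ : Submodule R R)) →
      v ∈ (I ^ m • ⊤ : Submodule R (Fin n → R)) := by
    intro m v hv
    have h2 : v = ∑ i, LinearMap.single R (fun _ : Fin n => R) i (v i) := by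
      ext i
      simp [Finset.sum_apply, Pi.single_apply]
    rw [h2]
    refine Submodule.sum_mem _ fun i _ => ?_
    have h1 : (I ^ m • ⊤ : Submodule R R) ≤
        (I ^ m • ⊤ : Submodule R (Fin n → R)).comap (LinearMap.single R (fun _ : Fin n => R) i) := by
      rw [Submodule.smul_le]
      intro r hr w _
      have h3 : LinearMap.single R (fun _ : Fin n => R) i (r • w) =
          r • LinearMap.single R (fun _ : Fin n => R) i w := map_smul _ _ _
      change LinearMap.single R (fun _ : Fin n => R) i (r • w) ∈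
        (I ^ m • ⊤ : Submodule R (Fin n → R))
      rw [h3]
      exact Submodule.smul_mem_smul hr Submodule.mem_top
    exact h1 (hv i)
  have hL : ∀ i, ∃ L : R, ∀ m, f m i ≡ L [SMOD (I ^ m • ⊤ : Submodule R R)] := by
    intro i
    refine IsPrecomplete.prec' (fun m => f m i) fun {a b} hab => ?_
    have h1 := hf hab
    rw [SModEq.sub_mem] at h1 ⊢
    exact hco a _ h1 i
  choose L hL using hL
  refine ⟨L, fun m => ?_⟩
  rw [SModEq.sub_mem]
  refine hco2 m _ fun i => ?_
  have := hL i m
  rw [SModEq.sub_mem] at this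
  exact this

end

/-- finite submodules of `K`-like modules are commensurable with `R` -/
lemma exists_den {R K : Type*} [CommRing R] [IsDomain R] [Field K] [Algebra R K]
    [IsFractionRing R K] (S : Subalgebra R K) (s : Set S) (hs : s.Finite) :
    ∃ c : R, c ≠ 0 ∧ ∀ t ∈ Submodule.span R s, ∃ r : R, algebraMap R S r = c • t := by
  classical
  obtain ⟨b, hb⟩ := IsLocalization.exist_integer_multiples_of_finset (nonZeroDivisors R)
    (hs.toFinset.image fun t : S => (t : K))
  refine ⟨b, nonZeroDivisors.ne_zero b.2, fun t ht => ?_⟩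
  induction ht using Submodule.span_induction with
  | mem t ht =>
    obtain ⟨r, hr⟩ := hb (t : K) (Finset.mem_image_of_mem _ (hs.mem_toFinset.2 ht))
    refine ⟨r, Subtype.ext ?_⟩
    exact hr
  | zero => exact ⟨0, by simp⟩
  | add t t' _ _ h1 h2 =>
    obtain ⟨r, hr⟩ := h1
    obtain ⟨r', hr'⟩ := h2
    exact ⟨r + r', by rw [map_add, hr, hr', smul_add]⟩
  | smul a t _ h1 =>
    obtain ⟨r, hr⟩ := h1
    refine ⟨a * r, ?_⟩
    rw [smul_comm, ← hr, map_mul, Algebra.smul_def]

theorem main {R K : Type*} [CommRing R] [IsDomain R]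
    [IsLocalRing R] [IsNoetherianRing R] [IsAdicComplete (maximalIdeal R) R]
    (hdim : ringKrullDim R = 1) [Field K] [Algebra R K] [IsFractionRing R K] :
    Module.Finite R (integralClosure R K) := by
  haveI hK1 : Ring.KrullDimLE 1 R := by
    rw [Ring.KrullDimLE, Order.krullDimLE_iff]
    exact hdim.le
  have hm : maximalIdeal R ≠ ⊥ := by
    intro h
    have h1 := ringKrullDim_eq_zero_of_isField (isField_iff_maximalIdeal_eq.2 h)
    rw [h1] at hdim
    exact zero_ne_one hdim
  obtain ⟨x, hxm, hx0⟩ := Submodule.exists_mem_ne_zero_of_ne_bot hm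
  set S := integralClosure R K with hS
  haveI : FaithfulSMul R S := by
    rw [faithfulSMul_iff_algebraMap_injective]
    intro a b hab
    have h1 := congrArg (fun z : S => (z : K)) hab
    exact IsFractionRing.injective R K h1
  have hinj : Function.Injective (algebraMap R S) := FaithfulSMul.algebraMap_injective R S
  haveI hSdom : IsDomain S := inferInstance
  have hreg : ∀ s : S, x • s = 0 → s = 0 := by
    intro s hs
    rw [Algebra.smul_def] at hs
    rcases mul_eq_zero.1 hs with h | h
    · exact absurd (hinj (h.trans (map_zero _).symm)) hx0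
    · exact h
  -- finiteness of `S / x S`
  have hQ : Module.Finite R (S ⧸ LinearMap.range (LinearMap.lsmul R S x)) := by
    refine finite_of_bdd (Module.length R (R ⧸ Ideal.span {x})) (len_span hx0) fun P hP => ?_
    obtain ⟨q, rfl⟩ := hP
    classical
    obtain ⟨σ, hσ⟩ : ∃ σ : (S ⧸ LinearMap.range (LinearMap.lsmul R S x)) → S,
        ∀ y, Submodule.mkQ _ (σ y) = y :=
      ⟨fun y => (Submodule.mkQ_surjective _ y).choose,
        fun y => (Submodule.mkQ_surjective _ y).choose_spec⟩
    set s : Set S := insert 1 (σ '' q) with hs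
    have hsfin : s.Finite := (q.finite_toSet.image σ).insert 1
    set T : Submodule R S := Submodule.span R s with hT
    haveI : Module.Finite R T := Module.Finite.iff_fg.2 (Submodule.fg_span hsfin)
    have h1T : (1 : S) ∈ T := Submodule.subset_span (Set.mem_insert _ _)
    let j : R →ₗ[R] T := (Algebra.linearMap R S).codRestrict T fun r => by
      rw [Algebra.linearMap_apply, Algebra.algebraMap_eq_smul_one]
      exact T.smul_mem r h1T
    have hj : Function.Injective j := by
      intro a b hab
      have h1 := congrArg (fun z : T => (z : S)) hab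
      exact hinj h1
    obtain ⟨c, hc0, hc⟩ := exists_den S s hsfin
    have hfin : Module.length R (T ⧸ LinearMap.range j) ≠ ⊤ := by
      refine fin_len hc0 fun y => ?_
      obtain ⟨t, rfl⟩ := Submodule.mkQ_surjective _ y
      rw [← map_smul, Submodule.mkQ_apply, Submodule.Quotient.mk_eq_zero]
      obtain ⟨r, hr⟩ := hc t t.2
      exact ⟨r, Subtype.ext hr⟩
    have hlen := len_eq x j hj (fun t ht => Subtype.ext (hreg t (congrArg Subtype.val ht))) hfin
    rw [← hlen]
    -- the map `T / x T → S / x S`
    let g0 : T →ₗ[R] (S ⧸ LinearMap.range (LinearMap.lsmul R S x)) :=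
      (Submodule.mkQ _) ∘ₗ T.subtype
    have hg0 : LinearMap.range (LinearMap.lsmul R T x) ≤ LinearMap.ker g0 := by
      rintro _ ⟨t, rfl⟩
      rw [LinearMap.mem_ker]
      change Submodule.mkQ _ _ = 0
      rw [Submodule.mkQ_apply, Submodule.Quotient.mk_eq_zero]
      exact ⟨t, rfl⟩
    let g := Submodule.liftQ _ g0 hg0
    have hPr : Submodule.span R (q : Set (S ⧸ LinearMap.range (LinearMap.lsmul R S x))) ≤
        LinearMap.range g := by
      rw [Submodule.span_le]
      intro y hy
      have h2 : σ y ∈ T := Submodule.subset_span (Set.mem_insert_of_mem _ ⟨y, hy, rfl⟩)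
      exact ⟨Submodule.mkQ _ ⟨σ y, h2⟩, hσ y⟩
    exact (Module.length_le_of_injective (Submodule.inclusion hPr)
      (Submodule.inclusion_injective hPr)).trans
      (Module.length_le_of_surjective g.rangeRestrict g.surjective_rangeRestrict)
  -- `S` is separated
  haveI hH : IsHausdorff (maximalIdeal R) S := by
    refine ⟨fun y hy => ?_⟩
    by_contra hy0
    haveI := artin hx0
    obtain ⟨n, hn⟩ := exists_maximalIdeal_pow_le_of_isArtinianRing_quotient (Ideal.span {x})
    have hdiv : ∀ k : ℕ, ∃ s : S, y = x ^ k • s := by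
      intro k
      have h1 := hy (n * k)
      rw [SModEq.sub_mem, sub_zero, pow_mul] at h1
      have h2 : (maximalIdeal R ^ n) ^ k ≤ Ideal.span {x ^ k} := by
        rw [← Ideal.span_singleton_pow]
        exact Ideal.pow_right_mono hn k
      have h3 := Submodule.smul_mono_left h2 h1
      rw [Submodule.ideal_span_singleton_smul] at h3
      obtain ⟨s, -, hs⟩ := h3
      exact ⟨s, hs.symm⟩
    -- a nonzero multiple of `y` in `R`
    obtain ⟨a, b, hb, hab⟩ := IsFractionRing.div_surjective (A := R) (y : K)
    have hb0 : algebraMap R K b ≠ 0 := fun h =>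
      nonZeroDivisors.ne_zero hb (IsFractionRing.injective R K (h.trans (map_zero _).symm))
    have hyK : (y : K) ≠ 0 := fun h => hy0 (Subtype.ext h)
    have ha0 : a ≠ 0 := by
      rintro rfl
      rw [map_zero, zero_div] at hab
      exact hyK hab.symm
    haveI := artin ha0
    obtain ⟨l, hl⟩ := exists_maximalIdeal_pow_le_of_isArtinianRing_quotient (Ideal.span {a})
    obtain ⟨r, hr⟩ := Ideal.mem_span_singleton'.1 (hl (Ideal.pow_mem_pow hxm l))
    obtain ⟨s, hs⟩ := hdiv (l + 1)
    have hxK : algebraMap R K x ≠ 0 := fun h =>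
      hx0 (IsFractionRing.injective R K (h.trans (map_zero _).symm))
    have h1 : algebraMap R K a = (y : K) * algebraMap R K b := by
      rw [← hab, div_mul_cancel₀ _ hb0]
    have h2 : (y : K) = algebraMap R K x ^ (l + 1) * (s : K) := by
      have := congrArg (fun z : S => (z : K)) hs
      rw [this]
      change (x ^ (l + 1)) • (s : K) = _
      rw [Algebra.smul_def, map_pow]
    have h3 : algebraMap R K x ^ l = algebraMap R K r * algebraMap R K a := by
      rw [← map_pow, ← hr, map_mul]
    have h4 : algebraMap R K x * ((s : K) * algebraMap R K b * algebraMap R K r) = 1 := by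
      have h5 : algebraMap R K x ^ l * (algebraMap R K x *
          ((s : K) * algebraMap R K b * algebraMap R K r)) = algebraMap R K x ^ l * 1 := by
        rw [mul_one]
        conv_rhs => rw [h3, h1, h2]
        ring
      exact mul_left_cancel₀ (pow_ne_zero _ hxK) h5
    have h6 : IsUnit (algebraMap R S x) := by
      refine IsUnit.of_mul_eq_one (s * algebraMap R S b * algebraMap R S r) (Subtype.ext ?_)
      exact h4
    have h7 : IsUnit x := isUnit_of_map_unit (algebraMap R S) x h6
    exact (mem_maximalIdeal x).1 hxm h7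
  -- generators
  obtain ⟨n, f, hf⟩ := Module.Finite.exists_fin' R (S ⧸ LinearMap.range (LinearMap.lsmul R S x))
  obtain ⟨g, hg⟩ := Module.projective_lifting_property
    (Submodule.mkQ (LinearMap.range (LinearMap.lsmul R S x))) f (Submodule.mkQ_surjective _)
  haveI : IsPrecomplete (maximalIdeal R) (Fin n → R) := prec_pi _ n
  refine Module.Finite.of_surjective g (surjective_of_mkQ_comp_surjective
    (I := maximalIdeal R) ?_)
  intro y
  obtain ⟨s, rfl⟩ := Submodule.mkQ_surjective _ y
  obtain ⟨v, hv⟩ := hf (Submodule.mkQ _ s)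
  refine ⟨v, ?_⟩
  rw [← hg] at hv
  simp only [LinearMap.comp_apply, Submodule.mkQ_apply, Submodule.Quotient.eq] at hv ⊢
  obtain ⟨t, ht⟩ := hv
  rw [← ht]
  exact Submodule.smul_mem_smul hxm Submodule.mem_top

end PkgFINC

theorem finite_integralClosure {k : Type v} {R K : Type u} [Field k] [CommRing R] [IsDomain R]
    [IsLocalRing R] [IsNoetherianRing R] [Algebra k R] [Module.Finite k (ResidueField R)]
    [IsAdicComplete (maximalIdeal R) R]
    (hdim : ringKrullDim R = 1) [Field K] [Algebra R K] [IsFractionRing R K] :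
    Module.Finite R (integralClosure R K) :=
  PkgFINC.main hdim

end Pool.Agent.T2H38.RM
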