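import Mathlib
import Pool.Agent.T2H38.RM.Defs

set_option autoImplicit false
universe u v

open IsLocalRing

namespace Pool.Agent.T2H38.RM

/-- T5 PID -/
theorem isPrincipalIdealRing_integralClosure {R K : Type u} [CommRing R] [IsDomain R]
    [IsLocalRing R] [IsNoetherianRing R] (hdim : ringKrullDim R = 1) [Field K] [Algebra R K]
    [IsFractionRing R K] [Module.Finite R (integralClosure R K)] :
    IsPrincipalIdealRing (integralClosure R K) := by
  have hR1 : Ring.KrullDimLE 1 R := by
    rw [Ring.krullDimLE_iff, hdim]
    norm_num
  have hD : Ring.DimensionLEOne R :=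
    ⟨fun {p} hp hp' => Ring.krullDimLE_one_iff_of_noZeroDivisors.mp hR1 p hp hp'⟩
  have hN : IsNoetherianRing (integralClosure R K) := IsNoetherianRing.of_finite R _
  have hIC : IsIntegrallyClosed (integralClosure R K) :=
    integralClosure.isIntegrallyClosedOfFiniteExtension (R := R) K (L := K)
  have hDS : Ring.DimensionLEOne (integralClosure R K) := inferInstance
  have hDD : IsDedekindDomain (integralClosure R K) := { hN, hDS, hIC with }
  have hinj : Function.Injective (algebraMap R (integralClosure R K)) := by
    have := IsFractionRing.injective R K
    intro a b h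
    apply this
    have := congrArg (algebraMap (integralClosure R K) K) h
    simpa [← IsScalarTower.algebraMap_apply] using this
  apply IsPrincipalIdealRing.of_finite_maximals
  refine (IsDedekindDomain.primesOver_finite (maximalIdeal R) (integralClosure R K)).subset ?_
  intro I hI
  have hI' : I.IsMaximal := hI
  have : I.IsPrime := hI'.isPrime
  refine ⟨this, ⟨?_⟩⟩
  have : (I.comap (algebraMap R (integralClosure R K))).IsMaximal :=
    Ideal.isMaximal_comap_of_isIntegral_of_isMaximal I
  exact (IsLocalRing.eq_maximalIdeal this).symm

end Pool.Agent.T2H38.RM
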