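import Pool.Agent.T2H38.RM.Defs2

set_option autoImplicit false
universe u v

open IsLocalRing

namespace Pool.Agent.T2H38.RM

/-- the maximal ideal is not contained in a minimal prime -/
theorem maxIdeal_not_le_min {R : Type u} [CommRing R] [IsLocalRing R]
    (hdim : ringKrullDim R = 1) (p : Mp R) : ¬ maximalIdeal R ≤ p.1 := by
  intro h
  have hp : p.1 = maximalIdeal R :=
    le_antisymm (le_maximalIdeal (Ideal.IsPrime.ne_top inferInstance)) h
  have h0 : p.1.height = 0 := Ideal.height_eq_zero_iff.2 p.2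
  rw [hp] at h0
  have h1 : ((maximalIdeal R).height : WithBot ℕ∞) = ringKrullDim R :=
    IsLocalRing.maximalIdeal_height_eq_ringKrullDim
  rw [h0, hdim] at h1
  exact absurd h1 (by norm_num)

/-- the map to the normalisation of a branch -/
theorem algebraMap_Sp_eq_zero {R : Type u} [CommRing R] (p : Mp R) (y : R)
    (h : algebraMap R (Sp R p) y = 0) : y ∈ p.1 := by
  have h1 : algebraMap (R ⧸ p.1) (FractionRing (R ⧸ p.1)) (Ideal.Quotient.mk p.1 y) = 0 := by
    have h2 := congrArg (fun s : Sp R p => (s : FractionRing (R ⧸ p.1))) h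
    exact h2
  rw [IsFractionRing.to_map_eq_zero_iff, Ideal.Quotient.eq_zero_iff_mem] at h1
  exact h1

theorem pow_smul_ne_bot {R : Type u} [CommRing R] [IsLocalRing R] [IsNoetherianRing R]
    (hdim : ringKrullDim R = 1) (p : Mp R) (n : ℕ) :
    (maximalIdeal R ^ n) • (⊤ : Submodule R (Sp R p)) ≠ ⊥ := by
  intro h
  obtain ⟨y, hy, hyp⟩ := Set.not_subset.1 (maxIdeal_not_le_min hdim p)
  have h1 : y ^ n • (1 : Sp R p) ∈ (maximalIdeal R ^ n) • (⊤ : Submodule R (Sp R p)) :=
    Submodule.smul_mem_smul (Ideal.pow_mem_pow hy n) Submodule.mem_top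
  rw [h, Submodule.mem_bot, ← Algebra.algebraMap_eq_smul_one] at h1
  exact hyp (Ideal.IsPrime.mem_of_pow_mem inferInstance n (algebraMap_Sp_eq_zero p _ h1))

end Pool.Agent.T2H38.RM
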