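import Mathlib
import Pool.Agent.T2H38.RM.Defs
import Pool.Agent.T2H38.RM.Defs2

/-!
# Project RM (MP_d7d607_ag), package QUO: the branches `R ⧸ p`
-/

set_option autoImplicit false
universe u v

open IsLocalRing

namespace Pool.Agent.T2H38.RM

namespace QUO

lemma max_le_map {R : Type u} [CommRing R] [IsLocalRing R] (p : Ideal R) [IsLocalRing (R ⧸ p)] :
    maximalIdeal (R ⧸ p) ≤ (maximalIdeal R).map (Ideal.Quotient.mk p) := by
  intro x hx
  obtain ⟨r, rfl⟩ := Ideal.Quotient.mk_surjective x
  refine Ideal.mem_map_of_mem _ ?_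
  rw [mem_maximalIdeal, mem_nonunits_iff] at hx ⊢
  exact fun h => hx (h.map _)

lemma ne_top {R : Type u} [CommRing R] (p : Ideal R) [IsLocalRing (R ⧸ p)] : p ≠ ⊤ := by
  have : Nontrivial (R ⧸ p) := inferInstance
  exact Ideal.Quotient.nontrivial_iff.1 this

lemma isLocalHom_mk {R : Type u} [CommRing R] [IsLocalRing R] (p : Ideal R) [IsLocalRing (R ⧸ p)] :
    IsLocalHom (Ideal.Quotient.mk p) := by
  have hp := ne_top p
  have hpm : p ≤ maximalIdeal R := IsLocalRing.le_maximalIdeal hp
  refine ⟨fun a ha => ?_⟩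
  obtain ⟨b, hb⟩ := ha.exists_right_inv
  obtain ⟨s, rfl⟩ := Ideal.Quotient.mk_surjective b
  have h1 : a * s - 1 ∈ p := by
    rw [← Ideal.Quotient.eq, map_mul, hb, map_one]
  have h2 := hpm h1
  by_contra hu
  have h3 : a ∈ maximalIdeal R := (mem_maximalIdeal a).2 hu
  have h4 : a * s ∈ maximalIdeal R := Ideal.mul_mem_right _ _ h3
  have h5 : (1 : R) ∈ maximalIdeal R := by
    have h6 := Ideal.sub_mem _ h4 h2
    rwa [sub_sub_cancel] at h6
  exact (Ideal.ne_top_iff_one _).1 (maximalIdeal.isMaximal R).ne_top h5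

lemma map_le_max {R : Type u} [CommRing R] [IsLocalRing R] (p : Ideal R) [IsLocalRing (R ⧸ p)] :
    (maximalIdeal R).map (Ideal.Quotient.mk p) ≤ maximalIdeal (R ⧸ p) := by
  rw [Ideal.map_le_iff_le_comap]
  intro x hx
  rw [Ideal.mem_comap, mem_maximalIdeal, mem_nonunits_iff]
  intro h
  have := isLocalHom_mk p
  have h2 := isUnit_of_map_unit (Ideal.Quotient.mk p) x h
  exact (mem_maximalIdeal x).1 hx h2

end QUO

theorem quot_facts {k : Type v} {R : Type u} [Field k] [CommRing R]
    [IsLocalRing R] [IsNoetherianRing R] [Algebra k R] [Module.Finite k (ResidueField R)]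
    [IsAdicComplete (maximalIdeal R) R] (hdim : ringKrullDim R = 1) (p : Mp R) :
    IsLocalRing (R ⧸ p.1) ∧ ringKrullDim (R ⧸ p.1) = 1 := by
  obtain ⟨p, hp⟩ := p
  have hpp : p.IsPrime := hp.1.1
  have hloc : IsLocalRing (R ⧸ p) := by
    have : Nontrivial (R ⧸ p) := Ideal.Quotient.nontrivial_iff.2 hpp.ne_top
    exact IsLocalRing.of_surjective' (Ideal.Quotient.mk p) Ideal.Quotient.mk_surjective
  refine ⟨hloc, le_antisymm ?_ ?_⟩
  · exact hdim ▸ ringKrullDim_quotient_le p
  · -- otherwise `R ⧸ p` has dimension zero, so `p` is maximal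
    by_contra hlt
    rw [not_le] at hlt
    have hK : Ring.KrullDimLE 0 (R ⧸ p) :=
      Ring.krullDimLE_iff.mpr (ENat.WithBot.lt_add_one_iff.mp (by simpa using hlt))
    have hf : IsField (R ⧸ p) := Ring.KrullDimLE.isField_of_isDomain
    have hm : p.IsMaximal := Ideal.Quotient.maximal_of_isField p hf
    have hpm : p = maximalIdeal R := IsLocalRing.eq_maximalIdeal hm
    have hh := IsLocalRing.maximalIdeal_height_eq_ringKrullDim (R := R)
    have h1 : (maximalIdeal R).height = 0 := by
      rw [Ideal.height_eq_zero_iff, ← hpm]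
      exact hp
    rw [h1, hdim] at hh
    exact absurd hh (by decide)

theorem quot_complete {R : Type u} [CommRing R]
    [IsLocalRing R] [IsNoetherianRing R]
    [IsAdicComplete (maximalIdeal R) R] (p : Ideal R) [IsLocalRing (R ⧸ p)] :
    IsAdicComplete (maximalIdeal (R ⧸ p)) (R ⧸ p) := by
  have hle1 := QUO.max_le_map p
  have hle2 := QUO.map_le_max p
  have hprec : IsPrecomplete (maximalIdeal (R ⧸ p)) (R ⧸ p) := by
    refine ⟨fun f hf => ?_⟩
    have hd : ∀ n, ∃ d : R, d ∈ maximalIdeal R ^ n ∧ Ideal.Quotient.mk p d = f (n + 1) - f n := by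
      intro n
      have h1 := hf (Nat.le_succ n)
      rw [SModEq.sub_mem] at h1
      have h2 : f n - f (n + 1) ∈ (maximalIdeal R ^ n).map (Ideal.Quotient.mk p) := by
        rw [Ideal.map_pow]
        refine Ideal.pow_right_mono hle1 n ?_
        simpa using h1
      have h3 : f (n + 1) - f n ∈ (maximalIdeal R ^ n).map (Ideal.Quotient.mk p) := by
        rw [← neg_sub]; exact neg_mem h2
      rw [Ideal.mem_map_iff_of_surjective _ Ideal.Quotient.mk_surjective] at h3
      obtain ⟨d, hd, hd2⟩ := h3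
      exact ⟨d, hd, hd2⟩
    choose d hd1 hd2 using hd
    obtain ⟨g0, hg0⟩ := Ideal.Quotient.mk_surjective (f 0)
    let g : ℕ → R := fun n => g0 + ∑ i ∈ Finset.range n, d i
    have hgf : ∀ n, Ideal.Quotient.mk p (g n) = f n := by
      intro n
      induction n with
      | zero => simp [g, hg0]
      | succ n ih =>
        have : g (n + 1) = g n + d n := by simp only [g, Finset.sum_range_succ]; ring
        rw [this, map_add, ih, hd2]; ring
    have hgc : ∀ {m n : ℕ}, m ≤ n → g m ≡ g n [SMOD (maximalIdeal R ^ m • ⊤ : Submodule R R)] := by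
      intro m n hmn
      rw [SModEq.sub_mem]
      have h1 : g n - g m = ∑ i ∈ Finset.Ico m n, d i := by
        simp only [g, Finset.sum_Ico_eq_sub _ hmn]; ring
      have h2 : g n - g m ∈ maximalIdeal R ^ m := by
        rw [h1]
        refine Ideal.sum_mem _ (fun i hi => ?_)
        exact Ideal.pow_le_pow_right (Finset.mem_Ico.1 hi).1 (hd1 i)
      have h3 : g m - g n ∈ maximalIdeal R ^ m := by rw [← neg_sub]; exact neg_mem h2
      simpa using h3
    obtain ⟨L, hL⟩ := IsPrecomplete.prec (inferInstance : IsPrecomplete (maximalIdeal R) R) hgc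
    refine ⟨Ideal.Quotient.mk p L, fun n => ?_⟩
    rw [SModEq.sub_mem, ← hgf n, ← map_sub]
    have h1 := hL n
    rw [SModEq.sub_mem] at h1
    have h2 : g n - L ∈ maximalIdeal R ^ n := by simpa using h1
    have h3 : Ideal.Quotient.mk p (g n - L) ∈ maximalIdeal (R ⧸ p) ^ n := by
      have := Ideal.mem_map_of_mem (Ideal.Quotient.mk p) h2
      rw [Ideal.map_pow] at this
      exact Ideal.pow_right_mono hle2 n this
    simpa using h3
  exact { toIsHausdorff := inferInstance, toIsPrecomplete := hprec }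

theorem quot_residue {k : Type v} {R : Type u} [Field k] [CommRing R]
    [IsLocalRing R] [Algebra k R] [Module.Finite k (ResidueField R)]
    (p : Ideal R) [IsLocalRing (R ⧸ p)] :
    Module.Finite k (ResidueField (R ⧸ p)) := by
  have hl : IsLocalHom (Ideal.Quotient.mk p) := QUO.isLocalHom_mk p
  let φ : ResidueField R →+* ResidueField (R ⧸ p) := ResidueField.map (Ideal.Quotient.mk p)
  have hφ : ∀ r : R, φ (residue R r) = residue (R ⧸ p) (Ideal.Quotient.mk p r) := fun r => rfl
  let ψ : ResidueField R →ₗ[k] ResidueField (R ⧸ p) :=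
    { toFun := φ
      map_add' := map_add φ
      map_smul' := by
        intro c x
        obtain ⟨r, rfl⟩ := residue_surjective x
        rfl }
  refine Module.Finite.of_surjective ψ ?_
  intro y
  obtain ⟨z, rfl⟩ := residue_surjective y
  obtain ⟨r, rfl⟩ := Ideal.Quotient.mk_surjective z
  exact ⟨residue R r, hφ r⟩

end Pool.Agent.T2H38.RM
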