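import Mathlib
import Pool.Agent.T2H38.RM.Asm
import Pool.Agent.T2H38.RM.QUO
import Pool.Agent.T2H38.RM.FINC
import Pool.Agent.T2H38.RM.PIDC
import Pool.Agent.T2H38.RM.CON2
import Pool.Agent.T2H38.RM.EMB2
import Pool.Agent.T2H38.RM.PSB

set_option autoImplicit false
universe u v

open IsLocalRing

namespace Pool.Agent.T2H38.RM

theorem main {k : Type v} [Field k] (R : Type u) [CommRing R] [IsLocalRing R] [IsNoetherianRing R]
    [IsReduced R] [Algebra k R] [Module.Finite k (ResidueField R)]
    (hcomp : IsAdicComplete (maximalIdeal R) R) (hdim : ringKrullDim R = 1) (N : ℕ) :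
    ∃ (n : ℕ) (F : Fin n → ModuleCat.{u} R),
      ∀ (M : Type u) [AddCommGroup M] [Module R M],
        Module.Finite R M →
        (∃ rs : List R,
            (∀ r ∈ rs, r ∈ maximalIdeal R) ∧
            RingTheory.Sequence.IsRegular M rs ∧
            ((rs.length : WithBot ℕ∞) = ringKrullDim R) ∧
            ∃ e : ℝ, e ≤ (N : ℝ) ∧
              Filter.Tendsto
                (fun n : ℕ =>
                  ((rs.length).factorial : ℝ) *
                    ((Module.length R
                        (M ⧸ ((maximalIdeal R ^ n) • (⊤ : Submodule R M)))).toNat : ℝ) /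
                    ((n : ℝ) ^ rs.length))
                Filter.atTop (nhds e)) →
        (∀ (E : Type u) [AddCommGroup E] [Module R E]
            (f : M →ₗ[R] E) (g : E →ₗ[R] M),
            Function.Injective f → Function.Surjective g →
            LinearMap.range f = LinearMap.ker g →
            ∃ s : M →ₗ[R] E, g ∘ₗ s = LinearMap.id) →
        ∃ i : Fin n, Nonempty (M ≃ₗ[R] (F i)) := by
  haveI := hcomp
  have hq := fun p : Mp R => quot_facts (k := k) hdim p
  haveI : ∀ p : Mp R, IsLocalRing (R ⧸ p.1) := fun p => (hq p).1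
  haveI : ∀ p : Mp R, IsAdicComplete (maximalIdeal (R ⧸ p.1)) (R ⧸ p.1) :=
    fun p => quot_complete p.1
  haveI : ∀ p : Mp R, Module.Finite k (ResidueField (R ⧸ p.1)) := fun p => quot_residue p.1
  haveI hfin : ∀ p : Mp R, Module.Finite (R ⧸ p.1) (Sp R p) := fun p =>
    finite_integralClosure (k := k) (K := FractionRing (R ⧸ p.1)) (hq p).2
  have hPID : ∀ p : Mp R, IsPrincipalIdealRing (Sp R p) := fun p =>
    isPrincipalIdealRing_integralClosure (K := FractionRing (R ⧸ p.1)) (hq p).2
  haveI : ∀ p : Mp R, Module.Finite R (Sp R p) := fun p =>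
    haveI : Module.Finite R (R ⧸ p.1) := inferInstance
    Module.Finite.trans (R ⧸ p.1) (Sp R p)
  obtain ⟨c, hc, hn, hcS, hreg⟩ := exists_conductor_reduced hdim hfin
  haveI : Finite (Mp R) := (minimalPrimes.finite_of_isNoetherianRing R).to_subtype
  obtain ⟨n, G, hG⟩ := finite_rigid_abs (k := k) (R := R) (ι := Mp R) (fun p => Sp R p)
    (fun p n => pow_smul_ne_bot hdim p n) c hc hn hcS hreg N
  refine ⟨n, G, ?_⟩
  intro M _ _ hM ⟨rs, hrs, hregM, hlen, e, heN, hlim⟩ hrig
  have h1 : rs.length = 1 := by
    rw [hdim] at hlen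
    exact_mod_cast hlen
  obtain ⟨x, rfl⟩ := List.length_eq_one_iff.mp h1
  have hx : IsSMulRegular M x := by
    have := hregM.toIsWeaklyRegular
    simpa using this
  refine hG M hM ?_ ⟨e, heN, ?_⟩ hrig
  · exact exists_embedding_reduced hdim hPID x (hrs x (by simp)) hx
  · simpa using hlim

end Pool.Agent.T2H38.RM
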