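import Pool.Agent.T2H38.RM.Defs

/-!
# Package POWS: powers of the maximal ideal in a one-dimensional local domain
-/

set_option autoImplicit false

open IsLocalRing

namespace Pool.Agent.T2H38.RM

/-- T8a -/
theorem exists_pow_le_span {R : Type*} [CommRing R] [IsDomain R] [IsLocalRing R]
    [IsNoetherianRing R] (hdim : ringKrullDim R = 1) (c : R) (hc : c ≠ 0) :
    ∃ n : ℕ, maximalIdeal R ^ n ≤ Ideal.span {c} := by
  have hK : Ring.KrullDimLE 1 R := Ring.krullDimLE_iff.2 (by rw [hdim]; rfl)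
  refine Ideal.exists_pow_le_of_le_radical_of_fg ?_ (IsNoetherian.noetherian _)
  rw [Ideal.radical_eq_sInf, le_sInf_iff]
  rintro P ⟨hP, hprime⟩
  have hPne : P ≠ ⊥ := by
    rintro rfl
    apply hc
    have h1 : c ∈ (⊥ : Ideal R) := hP (Ideal.mem_span_singleton_self c)
    simpa using h1
  have hmax : P.IsMaximal :=
    Ring.krullDimLE_one_iff_of_isPrime_bot.1 hK P hPne hprime
  rw [IsLocalRing.eq_maximalIdeal hmax]

theorem torsionfree_of_regular {R : Type*} [CommRing R] [IsDomain R] [IsLocalRing R]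
    [IsNoetherianRing R] (hdim : ringKrullDim R = 1) {M : Type*} [AddCommGroup M] [Module R M]
    (x : R) (hx : x ∈ maximalIdeal R) (hreg : IsSMulRegular M x) (a : R) (m : M)
    (h : a • m = 0) : a = 0 ∨ m = 0 := by
  by_cases ha : a = 0
  · exact Or.inl ha
  · right
    obtain ⟨n, hn⟩ := exists_pow_le_span hdim a ha
    have h1 : x ^ n ∈ Ideal.span {a} := hn (Ideal.pow_mem_pow hx n)
    obtain ⟨b, hb⟩ := Ideal.mem_span_singleton'.1 h1
    have h2 : x ^ n • m = 0 := by
      rw [← hb, mul_smul, h, smul_zero]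
    have h3 : IsSMulRegular M (x ^ n) := hreg.pow n
    apply h3
    change x ^ n • m = x ^ n • (0 : M)
    rw [h2, smul_zero]

end Pool.Agent.T2H38.RM
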